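import Mathlib

set_option autoImplicit false

namespace H46M

/-- The tree of the numerators `P = N_u`, `Q = N_v`, `N = N_(u+v)`, `u = (p, q)`, `v = (r, s)`. -/
inductive Tri {R : Type} [CommRing R] (a b c : R) : ℕ → ℕ → ℕ → ℕ → R → R → R → Prop
  | base : Tri a b c 0 1 1 0 1 1 (a + b)
  | left {p q r s : ℕ} {P Q N : R} : Tri a b c p q r s P Q N →
      Tri a b c p q (p + r) (q + s) P N ((a + b + c) * P * N - a ^ p * b ^ q * c ^ (p + q) * Q)
  | right {p q r s : ℕ} {P Q N : R} : Tri a b c p q r s P Q N →
      Tri a b c (p + r) (q + s) r s N Q ((a + b + c) * N * Q - a ^ r * b ^ s * c ^ (r + s) * P)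

variable {R S : Type} [CommRing R] [CommRing S] {a b c : R} {p q r s : ℕ} {P Q N : R}

theorem Tri.map (f : R →+* S) (h : Tri a b c p q r s P Q N) :
    Tri (f a) (f b) (f c) p q r s (f P) (f Q) (f N) := by
  induction h with
  | base => simpa using Tri.base (a := f a) (b := f b) (c := f c)
  | left _ ih => simpa using ih.left
  | right _ ih => simpa using ih.right

theorem Tri.swap (h : Tri a b c p q r s P Q N) : Tri b a c s r q p Q P N := by
  induction h with
  | base => rw [add_comm a b]; exact Tri.base
  | @left p q r s P Q N _ ih =>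
    have h1 := ih.right
    rw [add_comm s q, add_comm r p, add_comm q p] at h1
    convert h1 using 1
    ring
  | @right p q r s P Q N _ ih =>
    have h1 := ih.left
    rw [add_comm s q, add_comm r p, add_comm s r] at h1
    convert h1 using 1
    ring

/-- the two directions are neighbours -/
theorem Tri.det (h : Tri a b c p q r s P Q N) : q * r = p * s + 1 := by
  induction h with
  | base => rfl
  | left _ ih => rw [mul_add, mul_add, ih]; ring
  | right _ ih => rw [add_mul, add_mul, ih]; ring

/-- The Markov equation for the numerators. -/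
theorem Tri.markov (h : Tri a b c p q r s P Q N) :
    a ^ r * b ^ s * c ^ (r + s) * P ^ 2 + a ^ p * b ^ q * c ^ (p + q) * Q ^ 2 + N ^ 2 =
      (a + b + c) * P * Q * N := by
  induction h with
  | base => ring
  | @left p q r s P Q N _ ih =>
    have e : (p + r) + (q + s) = (p + q) + (r + s) := by ring
    rw [e, pow_add a, pow_add b, pow_add c]
    linear_combination (a ^ p * b ^ q * c ^ (p + q)) * ih
  | @right p q r s P Q N _ ih =>
    have e : (p + r) + (q + s) = (p + q) + (r + s) := by ring
    rw [e, pow_add a, pow_add b, pow_add c]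
    linear_combination (a ^ r * b ^ s * c ^ (r + s)) * ih

end H46M
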