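import Mathlib

set_option autoImplicit false

namespace H46M

open PowerSeries

/-- strictly log-concave without internal zeros -/
structure LC (g : ℕ → ℤ) : Prop where
  nonneg : ∀ n, 0 ≤ g n
  lc : ∀ i j, i ≤ j → g i * g (j + 2) < g (i + 1) * g (j + 1) ∨
    (g i * g (j + 2) = 0 ∧ g (i + 1) * g (j + 1) = 0)

theorem LC.of {g : ℕ → ℤ} (h0 : ∀ n, 0 ≤ g n) (hz : ∀ n, g n = 0 → g (n + 1) = 0)
    (h : ∀ n, g (n + 1) ≠ 0 → g n * g (n + 2) < g (n + 1) ^ 2) : LC g := by
  have hz' : ∀ n m, g n = 0 → g (n + m) = 0 := by
    intro n m hn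
    induction m with
    | zero => exact hn
    | succ m ih => exact hz _ ih
  refine ⟨h0, fun i j hij => ?_⟩
  by_cases hj : g (j + 1) = 0
  · right
    rw [hj, hz (j + 1) hj, mul_zero, mul_zero]
    exact ⟨rfl, rfl⟩
  left
  induction j, hij using Nat.le_induction with
  | base => have := h i hj; rw [sq] at this; exact this
  | succ j hij ih =>
    have h2 : g (j + 1 + 1) ≠ 0 := hj
    have h1 : g (j + 1) ≠ 0 := fun e => h2 (hz _ e)
    have hi : g (i + 1) ≠ 0 := by
      intro e
      apply h1
      have := hz' (i + 1) (j - i) e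
      rwa [show i + 1 + (j - i) = j + 1 by omega] at this
    have p1 : 0 < g (j + 1) := lt_of_le_of_ne (h0 _) (Ne.symm h1)
    have p2 : 0 < g (j + 2) := lt_of_le_of_ne (h0 _) (Ne.symm h2)
    have e1 := (h (j + 1) h2).le
    have e2 := h0 i
    refine lt_of_mul_lt_mul_right ?_ p1.le
    calc g i * g (j + 1 + 2) * g (j + 1) = g i * (g (j + 1) * g (j + 1 + 2)) := by ring
      _ ≤ g i * g (j + 1 + 1) ^ 2 := mul_le_mul_of_nonneg_left e1 e2
      _ = (g i * g (j + 2)) * g (j + 2) := by ring_nf
      _ < (g (i + 1) * g (j + 1)) * g (j + 2) := mul_lt_mul_of_pos_right (ih h1) p2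
      _ = g (i + 1) * g (j + 1 + 1) * g (j + 1) := by ring_nf

theorem LC.one_add {g f : ℕ → ℤ} (h : LC g) (f0 : f 0 = g 0) (f1 : ∀ n, f (n + 1) = g (n + 1) + g n) :
    LC f := by
  have N := h.nonneg
  refine ⟨fun n => ?_, fun i j hij => ?_⟩
  · cases n with
    | zero => rw [f0]; exact N 0
    | succ n => rw [f1]; exact add_nonneg (N _) (N _)
  · cases i with
    | zero =>
      rw [f0, f1 (j + 1), f1 0, f1 j]
      have e : g (j + 1 + 1) = g (j + 2) := rfl
      have h2 := mul_nonneg (N (0 + 1)) (N j)
      have h3 := mul_nonneg (N 0) (N j)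
      rw [e]
      rcases h.lc 0 j (Nat.zero_le _) with h1 | ⟨h1, h1'⟩
      · left; nlinarith
      · rcases (add_nonneg h2 h3).lt_or_eq with h4 | h4
        · left; nlinarith
        · have h5 : g 0 * g (j + 1) = 0 := by
            rcases Nat.eq_zero_or_pos j with rfl | hj
            · have : g 0 * g 0 = 0 := by nlinarith
              rw [mul_self_eq_zero.mp this, zero_mul]
            · obtain ⟨k, rfl⟩ : ∃ k, j = k + 1 := ⟨j - 1, by omega⟩
              rcases h.lc 0 k (Nat.zero_le _) with h6 | ⟨h6, -⟩
              · exfalso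
                have h7 : g (0 + 1) * g (k + 1) = 0 := by nlinarith
                have h8 := mul_nonneg (N 0) (N (k + 2))
                omega
              · exact h6
          right
          constructor <;> nlinarith
    | succ i =>
      obtain ⟨j, rfl⟩ : ∃ k, j = k + 1 := ⟨j - 1, by omega⟩
      have hij' : i ≤ j := by omega
      rw [f1 i, f1 (j + 1 + 1), f1 (i + 1), f1 (j + 1)]
      have e1 : g (j + 1 + 1 + 1) = g (j + 3) := rfl
      have e2 : g (j + 1 + 1) = g (j + 2) := rfl
      have e3 : g (i + 1 + 1) = g (i + 2) := rfl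
      rw [e1, e2, e3]
      have h1 : g (i + 1) * g (j + 3) < g (i + 2) * g (j + 2) ∨
          (g (i + 1) * g (j + 3) = 0 ∧ g (i + 2) * g (j + 2) = 0) := h.lc (i + 1) (j + 1) (by omega)
      have h2 : g i * g (j + 2) < g (i + 1) * g (j + 1) ∨
          (g i * g (j + 2) = 0 ∧ g (i + 1) * g (j + 1) = 0) := h.lc i j hij'
      have h3 : g i * g (j + 3) < g (i + 1) * g (j + 2) ∨
          (g i * g (j + 3) = 0 ∧ g (i + 1) * g (j + 2) = 0) := h.lc i (j + 1) (by omega)
      have h4 : g (i + 1) * g (j + 2) < g (i + 2) * g (j + 1) ∨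
          (g (i + 1) * g (j + 2) = 0 ∧ g (i + 2) * g (j + 1) = 0) ∨ i = j := by
        rcases Nat.lt_or_ge i j with h5 | h5
        · rcases h.lc (i + 1) j h5 with h6 | h6
          · exact Or.inl h6
          · exact Or.inr (Or.inl h6)
        · exact Or.inr (Or.inr (by omega))
      have n1 := mul_nonneg (N i) (N (j + 3))
      have n2 := mul_nonneg (N (i + 1)) (N (j + 2))
      have n3 := mul_nonneg (N (i + 2)) (N (j + 1))
      have n4 := mul_nonneg (N i) (N (j + 2))
      have n5 := mul_nonneg (N (i + 1)) (N (j + 1))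
      have n6 := mul_nonneg (N (i + 1)) (N (j + 3))
      have n7 := mul_nonneg (N (i + 2)) (N (j + 2))
      have E1 : (g (i + 1) + g i) * (g (j + 3) + g (j + 2)) =
          g (i + 1) * g (j + 3) + g (i + 1) * g (j + 2) + g i * g (j + 3) + g i * g (j + 2) := by ring
      have E2 : (g (i + 2) + g (i + 1)) * (g (j + 2) + g (j + 1)) =
          g (i + 2) * g (j + 2) + g (i + 2) * g (j + 1) + g (i + 1) * g (j + 2) + g (i + 1) * g (j + 1) := by
        ring
      rw [E1, E2]
      rcases h4 with h4 | h4 | h4
      · left
        rcases h1 with h1 | h1 <;> rcases h2 with h2 | h2 <;> rcases h3 with h3 | h3 <;> omega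
      · rcases h1 with h1 | h1 <;> rcases h2 with h2 | h2 <;> rcases h3 with h3 | h3 <;> omega
      · subst h4
        have E3 : g (i + 2) * g (i + 1) = g (i + 1) * g (i + 2) := mul_comm _ _
        rw [E3] at *
        rcases h1 with h1 | h1 <;> rcases h2 with h2 | h2 <;> rcases h3 with h3 | h3 <;> first
          | omega
          | (right
             have h5 : g (i + 1) = 0 := mul_self_eq_zero.mp h2.2
             rw [h5] at *
             simp at *
             omega)

theorem LC.pow_mul {s : ℤ⟦X⟧} (h : LC fun n => coeff n s) (m : ℕ) :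
    LC fun n => coeff n ((1 + X) ^ m * s) := by
  induction m with
  | zero => simpa using h
  | succ m ih =>
    refine ih.one_add ?_ fun n => ?_
    · simp [pow_succ, mul_comm, mul_left_comm, add_mul, mul_add]
    · have : ((1 + X) ^ (m + 1) * s : ℤ⟦X⟧) = (1 + X) ^ m * s + X * ((1 + X) ^ m * s) := by ring
      rw [this, map_add, coeff_succ_X_mul]

/-- the coefficients without the exceptional term -/
def hs (p q : ℕ) : ℕ → ℤ
  | 0 => p + q
  | 1 => 3 * p
  | k + 2 => 4 * ((p - (k + 1) * q : ℕ) : ℤ)

noncomputable def H (p q : ℕ) : ℤ⟦X⟧ := mk (hs p q) + if q = 1 then X ^ (p + 1) else 0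

theorem hs_add {p q r s : ℕ} (hq : 1 ≤ q) (hs1 : 1 ≤ s) (hd : q * r = p * s + 1) :
    (mk (hs (p + r) (q + s)) : ℤ⟦X⟧) = mk (hs p q) + mk (hs r s) := by
  ext k
  rw [map_add, coeff_mk, coeff_mk, coeff_mk]
  match k with
  | 0 => simp only [hs]; push_cast; ring
  | 1 => simp only [hs]; push_cast; ring
  | k + 2 =>
    simp only [hs]
    have key : (p + r - (k + 1) * (q + s) : ℕ) = (p - (k + 1) * q) + (r - (k + 1) * s) := by
      rcases le_or_gt p ((k + 1) * q) with h1 | h1 <;> rcases le_or_gt r ((k + 1) * s) with h2 | h2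
      · rw [Nat.sub_eq_zero_of_le h1, Nat.sub_eq_zero_of_le h2, Nat.sub_eq_zero_of_le (by nlinarith)]
      · rcases Nat.eq_or_lt_of_le h1 with h3 | h3
        · rw [mul_add, ← h3]; omega
        · exfalso
          have : q * ((k + 1) * s + 1) ≤ q * r := Nat.mul_le_mul_left _ h2
          have h4 : (p + 1) * s ≤ (k + 1) * q * s := Nat.mul_le_mul_right _ h3
          nlinarith
      · rcases Nat.eq_or_lt_of_le h2 with h3 | h3
        · rw [mul_add, ← h3]; omega
        · exfalso
          have : q * (r + 1) ≤ q * ((k + 1) * s) := Nat.mul_le_mul_left _ h3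
          have h4 : ((k + 1) * q + 1) * s ≤ p * s := Nat.mul_le_mul_right _ h1
          nlinarith
      · rw [mul_add]; omega
    rw [key]; push_cast; ring

theorem H_chain (n : ℕ) : H (n + 2) 1 = (1 + X) * H (n + 1) 1 - X * H n 1 + (1 + X) ^ 2 := by
  have key : (mk (hs (n + 2) 1) : ℤ⟦X⟧) =
      (1 + X) * mk (hs (n + 1) 1) - X * mk (hs n 1) + (1 + X) ^ 2 := by
    have e : ((1 + X) ^ 2 : ℤ⟦X⟧) = C 1 + X * (C 2 + X * (C 1)) := by
      rw [show (C 2 : ℤ⟦X⟧) = 2 from map_ofNat _ 2, show (C 1 : ℤ⟦X⟧) = 1 from map_one _]; ring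
    rw [e]
    ext k
    rw [add_mul, one_mul, map_add, map_sub, map_add, map_add]
    match k with
    | 0 => simp [hs]; ring
    | 1 =>
      rw [coeff_succ_X_mul, coeff_succ_X_mul, coeff_succ_X_mul, map_add, coeff_zero_X_mul, coeff_mk,
        coeff_mk, coeff_mk, coeff_mk, coeff_C, coeff_C, if_neg one_ne_zero, if_pos rfl]
      simp only [hs]; push_cast; ring
    | 2 =>
      rw [coeff_succ_X_mul, coeff_succ_X_mul, coeff_succ_X_mul, map_add, coeff_succ_X_mul, coeff_mk,
        coeff_mk, coeff_mk, coeff_mk, coeff_C, coeff_C, coeff_C, if_neg two_ne_zero,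
        if_neg one_ne_zero, if_pos rfl]
      simp only [hs, zero_add, one_mul, mul_one]
      have e1 : n + 2 - 1 = n + 1 := by omega
      have e2 : n + 1 - 1 = n := by omega
      rw [e1, e2]
      push_cast; ring
    | k + 3 =>
      rw [coeff_succ_X_mul, coeff_succ_X_mul, coeff_succ_X_mul, map_add,
        show k + 2 = (k + 1) + 1 from rfl, coeff_succ_X_mul, coeff_mk,
        coeff_mk, coeff_mk, coeff_mk, coeff_C, coeff_C, coeff_C, if_neg (by omega),
        if_neg (by omega), if_neg (by omega)]
      simp only [hs, mul_one]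
      have e1 : n + 2 - (k + 1 + 1) = n + 1 - (k + 1) := by omega
      have e2 : n - (k + 1) = n + 1 - (k + 1 + 1) := by omega
      rw [e1, e2]
      push_cast; ring
  rw [H, H, H, if_pos rfl, if_pos rfl, if_pos rfl, key]
  ring

theorem H_add {p q r s : ℕ} (hq : 1 ≤ q) (hs1 : 1 ≤ s) (hd : q * r = p * s + 1) :
    H (p + r) (q + s) = H p q + H r s - (if q = 1 then X ^ (p + 1) else 0) -
      (if s = 1 then X ^ (r + 1) else 0) := by
  rw [H, H, H, hs_add hq hs1 hd, if_neg (by omega)]
  ring

theorem H_two (p : ℕ) : H (2 * p + 1) 2 = H p 1 + H (p + 1) 1 - X ^ (p + 1) * (1 + X) := by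
  have h := H_add (p := p) (q := 1) (r := p + 1) (s := 1) le_rfl le_rfl (by ring)
  rw [if_pos rfl, if_pos rfl] at h
  have e : p + (p + 1) = 2 * p + 1 := by ring
  rw [e] at h
  rw [h]; ring

theorem cancel {m n : ℕ} (hmn : m ≤ n) {f g : ℤ⟦X⟧} (h : (1 + X) ^ m * f = (1 + X) ^ n * g) :
    f = (1 + X) ^ (n - m) * g := by
  have h1 : ((1 + X : ℤ⟦X⟧)) ^ m ≠ 0 := by
    apply pow_ne_zero
    intro h
    have := congrArg (coeff (R := ℤ) 0) h
    simp at this
  apply mul_left_cancel₀ h1
  rw [h, ← mul_assoc, ← pow_add, Nat.add_sub_cancel' hmn]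

/-- log-concavity of the second coefficient -/
theorem LC_snd {p q : ℕ} (hq : 1 ≤ q) (hc : Nat.Coprime p q) {f : ℤ⟦X⟧}
    (h : (1 + X) ^ 3 * f = (1 + X) ^ q * (H p q - (1 + X))) : LC fun n => coeff n f := by
  rcases Nat.lt_or_ge q 3 with h3 | h3
  · interval_cases q
    · -- q = 1
      have h1 : f = mk fun k => ((p - k : ℕ) : ℤ) := by
        have h2 : H p 1 - (1 + X) = (1 + X) ^ 2 * mk fun k => ((p - k : ℕ) : ℤ) := by
          rw [H, if_pos rfl]
          ext k
          rw [show ((1 + X) ^ 2 * mk fun k => ((p - k : ℕ) : ℤ) : ℤ⟦X⟧) =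
            (mk fun k => ((p - k : ℕ) : ℤ)) + X * (C 2 * (mk fun k => ((p - k : ℕ) : ℤ))
              + X * (mk fun k => ((p - k : ℕ) : ℤ))) by
              rw [show (C 2 : ℤ⟦X⟧) = 2 from map_ofNat _ 2]; ring]
          rw [map_sub, map_add, map_add, map_add, coeff_mk, coeff_X_pow]
          match k with
          | 0 => simp [hs]
          | 1 =>
            rw [coeff_succ_X_mul, map_add, coeff_C_mul, coeff_zero_X_mul, coeff_mk, coeff_mk]
            simp only [hs, coeff_one, coeff_X]
            rcases Nat.eq_zero_or_pos p with h0 | h0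
            · subst h0; simp
            · rw [if_neg (by omega), if_neg (by omega)]
              simp only [if_true, Nat.sub_zero]
              push_cast [Nat.cast_sub h0]; ring
          | k + 2 =>
            rw [show k + 2 = (k + 1) + 1 from rfl, coeff_succ_X_mul, map_add, coeff_C_mul,
              coeff_succ_X_mul, coeff_mk, coeff_mk, coeff_mk]
            simp only [hs, coeff_one, coeff_X, mul_one]
            rw [if_neg (show ¬ (k + 1 + 1 = 0) by omega), if_neg (show ¬ (k + 1 + 1 = 1) by omega)]
            rcases lt_trichotomy p (k + 1) with h0 | h0 | h0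
            · rw [if_neg (by omega), show p - (k + 1) = 0 by omega, show p - (k + 1 + 1) = 0 by omega,
                show p - k = 0 by omega]; simp
            · rw [if_pos (by omega), show p - (k + 1) = 0 by omega, show p - (k + 1 + 1) = 0 by omega,
                show p - k = 1 by omega]; simp
            · rw [if_neg (by omega)]
              push_cast [Nat.cast_sub (show k + 1 + 1 ≤ p by omega), Nat.cast_sub (show k + 1 ≤ p by omega),
                Nat.cast_sub (show k ≤ p by omega)]
              ring
        rw [h2, ← mul_assoc, ← pow_add] at h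
        have h3 := cancel (le_refl 3) h
        simpa using h3
      rw [h1]
      simp only [coeff_mk]
      refine LC.of (fun n => by positivity) (fun n hn => ?_) (fun n => ?_)
      · omega
      · intro hne
        rcases Nat.lt_or_ge (n + 2) p with h0 | h0
        · clear hne
          push_cast [Nat.cast_sub (show n + 2 ≤ p by omega), Nat.cast_sub (show n + 1 ≤ p by omega),
            Nat.cast_sub (show n ≤ p by omega)]
          nlinarith
        · rw [show p - (n + 2) = 0 by omega, Nat.cast_zero, mul_zero]
          exact sq_pos_iff.mpr hne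
    · -- q = 2
      obtain ⟨n, rfl⟩ : ∃ n, p = 2 * n + 1 := by
        rw [Nat.coprime_two_right] at hc
        exact hc
      have h1 : f = mk fun k => match k with
          | 0 => (2 * n + 2 : ℤ)
          | k + 1 => 4 * ((n - k : ℕ) : ℤ) := by
        have h2 : H (2 * n + 1) 2 - (1 + X) = (1 + X) * mk fun k => match k with
          | 0 => (2 * n + 2 : ℤ)
          | k + 1 => 4 * ((n - k : ℕ) : ℤ) := by
          rw [H, if_neg (by omega), add_zero]
          ext k
          rw [add_mul, one_mul, map_sub, map_add, map_add, coeff_mk, coeff_mk]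
          match k with
          | 0 => simp [hs]; ring
          | 1 =>
            rw [coeff_succ_X_mul, coeff_mk]
            simp [hs, coeff_one]; ring
          | k + 2 =>
            rw [show k + 2 = (k + 1) + 1 from rfl, coeff_succ_X_mul, coeff_mk]
            simp only [hs, coeff_one, coeff_X]
            rw [if_neg (show ¬ (k + 1 + 1 = 0) by omega), if_neg (show ¬ (k + 1 + 1 = 1) by omega)]
            have : (2 * n + 1 - (k + 1) * 2 : ℕ) = (n - (k + 1)) + (n - k) := by omega
            rw [this]; push_cast; ring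
        rw [h2, ← mul_assoc, ← pow_succ] at h
        have h3 := cancel (le_refl 3) h
        simpa using h3
      rw [h1]
      simp only [coeff_mk]
      refine LC.of (fun n => ?_) (fun k hn => ?_) (fun k => ?_)
      · match n with
        | 0 => simp only; positivity
        | k + 1 => simp only; positivity
      · match k with
        | 0 => simp only at hn; omega
        | k + 1 =>
          simp only at hn ⊢
          rw [show n - (k + 1) = 0 by omega]; simp
      · match k with
        | 0 =>
          simp only [zero_add]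
          intro hne
          rcases Nat.lt_or_ge 1 n with h0 | h0
          · clear hne
            push_cast [Nat.cast_sub (show 1 ≤ n by omega)]
            have : (1 : ℤ) < n := by exact_mod_cast h0
            simp only [Nat.sub_zero]
            nlinarith
          · rw [show n - 1 = 0 by omega, Nat.cast_zero, mul_zero, mul_zero]
            exact sq_pos_iff.mpr hne
        | k + 1 =>
          simp only
          intro hne
          rcases Nat.lt_or_ge (k + 2) n with h0 | h0
          · clear hne
            push_cast [Nat.cast_sub (show k + 2 ≤ n by omega), Nat.cast_sub (show k + 1 ≤ n by omega),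
              Nat.cast_sub (show k ≤ n by omega)]
            nlinarith
          · rw [show n - (k + 1 + 1) = 0 by omega, Nat.cast_zero, mul_zero, mul_zero]
            exact sq_pos_iff.mpr hne
  · have hp : 1 ≤ p := by
      rcases Nat.eq_zero_or_pos p with h0 | h0
      · rw [h0, Nat.coprime_zero_left] at hc; omega
      · exact h0
    rw [cancel h3 h]
    refine LC.pow_mul ?_ _
    have hf : ∀ n, coeff n (H p q - (1 + X)) = match n with
        | 0 => (p : ℤ) + q - 1
        | 1 => 3 * p - 1
        | k + 2 => 4 * ((p - (k + 1) * q : ℕ) : ℤ) := by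
      intro n
      rw [H, if_neg (by omega), add_zero, map_sub, map_add, coeff_mk]
      match n with
      | 0 => simp [hs]
      | 1 => simp [hs, coeff_one]
      | k + 2 => simp [hs, coeff_one, coeff_X]
    refine LC.of (fun n => ?_) (fun n hn => ?_) (fun n => ?_)
    · rw [hf]
      match n with
      | 0 => simp only; omega
      | 1 => simp only; omega
      | k + 2 => simp only; positivity
    · rw [hf] at hn ⊢
      match n with
      | 0 => simp only at hn; omega
      | 1 => simp only at hn; omega
      | k + 2 =>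
        simp only at hn ⊢
        have : (p - (k + 1) * q : ℕ) = 0 := by omega
        have h4 : (p - (k + 1 + 1) * q : ℕ) = 0 := by
          rw [add_mul (k + 1) 1 q]; omega
        rw [h4]; simp
    · rw [hf, hf, hf]
      match n with
      | 0 =>
        simp only [zero_add, one_mul]
        intro hne
        rcases le_or_gt p q with h4 | h4
        · rw [Nat.sub_eq_zero_of_le h4, Nat.cast_zero, mul_zero, mul_zero]
          exact sq_pos_iff.mpr hne
        · clear hne
          push_cast [Nat.cast_sub h4.le]
          have a1 : (1 : ℤ) ≤ p := by exact_mod_cast hp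
          have a2 : (1 : ℤ) ≤ q := by exact_mod_cast hq
          nlinarith [mul_nonneg (sub_nonneg.mpr a1) (sub_nonneg.mpr a1), mul_nonneg (sub_nonneg.mpr a2) (sub_nonneg.mpr a2)]
      | 1 =>
        simp only [zero_add, one_mul]
        intro hne
        rcases le_or_gt p (2 * q) with h4 | h4
        · rw [show (p - (1 + 1) * q : ℕ) = 0 by omega, Nat.cast_zero, mul_zero, mul_zero]
          exact sq_pos_iff.mpr hne
        · have e1 : ((p - (1 + 1) * q : ℕ) : ℤ) = p - 2 * q := by push_cast [Nat.cast_sub h4.le]; ring
          have e2 : ((p - q : ℕ) : ℤ) = p - q := by push_cast [Nat.cast_sub (show q ≤ p by omega)]; ring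
          rw [e1, e2]
          have a1 : (2 * q : ℤ) < p := by exact_mod_cast h4
          have a2 : (1 : ℤ) ≤ q := by exact_mod_cast hq
          nlinarith [sq_nonneg ((p : ℤ) - q)]
      | n + 2 =>
        simp only
        intro hne
        rcases le_or_gt p ((n + 2 + 1) * q) with h4 | h4
        · rw [show (p - (n + 2 + 1) * q : ℕ) = 0 by omega, Nat.cast_zero, mul_zero, mul_zero]
          exact sq_pos_iff.mpr hne
        · have e1 : ((p - (n + 2 + 1) * q : ℕ) : ℤ) = p - (n + 3) * q := by
            push_cast [Nat.cast_sub h4.le]; ring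
          have e2 : ((p - (n + 1 + 1) * q : ℕ) : ℤ) = p - (n + 2) * q := by
            have : (n + 1 + 1) * q ≤ p := by nlinarith
            push_cast [Nat.cast_sub this]; ring
          have e3 : ((p - (n + 1) * q : ℕ) : ℤ) = p - (n + 1) * q := by
            have : (n + 1) * q ≤ p := by nlinarith
            push_cast [Nat.cast_sub this]; ring
          rw [e1, e2, e3]
          have a2 : (1 : ℤ) ≤ q := by exact_mod_cast hq
          nlinarith [mul_pos (show (0 : ℤ) < q by omega) (show (0 : ℤ) < q by omega)]

end H46M
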