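import Pool.Agent.Lib.H46M.A
import Pool.Agent.Lib.H46M.B

set_option autoImplicit false

namespace H46M

open PowerSeries

abbrev D := DualNumber ℤ⟦X⟧

/-- the node `(p, q)` in the direction of the second variable -/
def G (p q : ℕ) (N : D) : Prop :=
  (q = 0 ∧ p = 1 ∧ N = 1) ∨ (1 ≤ q ∧ (1 + X) * N.fst = (1 + X) ^ q ∧
    (1 + X) ^ 3 * N.snd = (1 + X) ^ q * (H p q - (1 + X)))

theorem fst_new (P N Q e : D) (p m : ℕ) :
    ((1 + DualNumber.eps + TrivSqZeroExt.inl X) * P * N -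
      1 ^ p * e * (TrivSqZeroExt.inl X) ^ m * Q : D).fst =
      (1 + X) * P.fst * N.fst - e.fst * X ^ m * Q.fst := by
  simp [TrivSqZeroExt.fst_pow]

theorem snd_new (P N Q e : D) (p m : ℕ) :
    ((1 + DualNumber.eps + TrivSqZeroExt.inl X) * P * N -
      1 ^ p * e * (TrivSqZeroExt.inl X) ^ m * Q : D).snd =
      (1 + X) * (P.fst * N.snd + P.snd * N.fst) + P.fst * N.fst -
        (e.fst * X ^ m * Q.snd + e.snd * X ^ m * Q.fst) := by
  rw [TrivSqZeroExt.inl_pow]
  simp [DualNumber.snd_mul]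
  ring

theorem eps_pow (k : ℕ) : (DualNumber.eps : D) ^ (k + 2) = 0 := by
  rw [pow_add, sq, DualNumber.eps_mul_eps, mul_zero]

theorem H01 : H 0 1 = 1 + X := by
  have : (mk (hs 0 1) : ℤ⟦X⟧) = 1 := by
    ext k
    rw [coeff_mk, coeff_one]
    match k with
    | 0 => simp [hs]
    | 1 => simp [hs]
    | k + 2 => simp [hs]
  rw [H, if_pos rfl, this, zero_add, pow_one]

theorem H11 : H 1 1 = 2 + 3 * X + X ^ 2 := by
  have : (mk (hs 1 1) : ℤ⟦X⟧) = 2 + 3 * X := by
    ext k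
    rw [coeff_mk, show (2 + 3 * X : ℤ⟦X⟧) = C 2 + C 3 * X by rw [map_ofNat, map_ofNat], map_add,
      coeff_C_mul, coeff_C, coeff_X]
    match k with
    | 0 => rfl
    | 1 => rfl
    | k + 2 =>
      rw [if_neg (by omega), if_neg (by omega)]
      simp [hs]
  rw [H, if_pos rfl, this]

theorem comb {Pf Ps Nf Ns h1 h2 : ℤ⟦X⟧} {m n : ℕ} (fP : (1 + X) * Pf = (1 + X) ^ m)
    (sP : (1 + X) ^ 3 * Ps = (1 + X) ^ m * (h1 - (1 + X))) (fN : (1 + X) * Nf = (1 + X) ^ n)
    (sN : (1 + X) ^ 3 * Ns = (1 + X) ^ n * (h2 - (1 + X))) :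
    (1 + X) ^ 3 * ((1 + X) * (Pf * Ns + Ps * Nf) + Pf * Nf) = (1 + X) ^ (m + n) * (h1 + h2 - (1 + X)) := by
  rw [pow_add]
  linear_combination ((1 + X) ^ 3 * Ns) * fP + (1 + X) ^ m * sN + ((1 + X) * Nf) * sP +
    ((1 + X) ^ m * (h1 - (1 + X))) * fN + (1 + X) * ((1 + X) * Nf) * fP + (1 + X) * (1 + X) ^ m * fN

theorem dirB {p q r s : ℕ} {P Q N : D}
    (h : Tri (1 : D) DualNumber.eps (TrivSqZeroExt.inl X) p q r s P Q N) :
    1 ≤ q ∧ 1 ≤ r ∧ G p q P ∧ G r s Q ∧ G (p + r) (q + s) N := by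
  induction h with
  | base =>
    refine ⟨le_rfl, le_rfl, Or.inr ⟨le_rfl, ?_, ?_⟩, Or.inl ⟨rfl, rfl, rfl⟩, Or.inr ⟨le_rfl, ?_, ?_⟩⟩
    · simp
    · rw [H01]; simp
    · simp
    · rw [show (0 + 1 : ℕ) = 1 from rfl, H11, TrivSqZeroExt.snd_add, TrivSqZeroExt.snd_one,
        DualNumber.snd_eps]
      ring
  | @left p q r s P Q N h ih =>
    obtain ⟨hq, hr, hP, hQ, hN⟩ := ih
    have hd := h.det
    refine ⟨hq, by omega, hP, hN, Or.inr ⟨by omega, ?_, ?_⟩⟩
    all_goals
      obtain ⟨hP1, -, -⟩ | ⟨-, fP, sP⟩ := hP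
      · omega
      obtain ⟨hN1, -, -⟩ | ⟨-, fN, sN⟩ := hN
      · omega
    · rw [fst_new]
      have : (DualNumber.eps ^ q : D).fst = 0 := by
        rw [TrivSqZeroExt.fst_pow, DualNumber.fst_eps, zero_pow (by omega)]
      rw [this, zero_mul, zero_mul, sub_zero, pow_add, ← fP, ← fN]
      ring
    · have hc := comb fP sP fN sN
      rw [snd_new]
      have hA := H_add (p := p) (q := q) (r := p + r) (s := q + s) hq (by omega)
        (by rw [mul_add, mul_add, hd]; ring)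
      rcases Nat.lt_or_ge q 2 with h2 | h2
      · obtain rfl : q = 1 := by omega
        rw [pow_one, DualNumber.fst_eps, DualNumber.snd_eps, hA, if_pos rfl]
        obtain ⟨hs0, hr1, hQ1⟩ | ⟨hs1, fQ, sQ⟩ := hQ
        · subst hs0 hr1 hQ1
          rw [if_pos (by omega)]
          simp only [TrivSqZeroExt.fst_one, TrivSqZeroExt.snd_one]
          rw [show 1 + (1 + 0) = 2 from rfl] at *
          linear_combination hc
        · rw [if_neg (by omega)]
          have e : (1 + X : ℤ⟦X⟧) ^ (1 + (1 + s)) = (1 + X) ^ 2 * (1 + X) ^ s := by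
            rw [← pow_add]; congr 1; omega
          rw [e] at *
          linear_combination hc - X ^ (p + 1) * (1 + X) ^ 2 * fQ
      · obtain ⟨k, rfl⟩ : ∃ k, q = k + 2 := ⟨q - 2, by omega⟩
        rw [eps_pow, hA, if_neg (by omega), if_neg (by omega)]
        simp only [TrivSqZeroExt.fst_zero, TrivSqZeroExt.snd_zero]
        linear_combination hc
  | @right p q r s P Q N h ih =>
    obtain ⟨hq, hr, hP, hQ, hN⟩ := ih
    have hd := h.det
    refine ⟨by omega, hr, hN, hQ, Or.inr ⟨by omega, ?_, ?_⟩⟩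
    all_goals
      obtain ⟨hP1, -, -⟩ | ⟨-, fP, sP⟩ := hP
      · omega
      obtain ⟨hN1, -, -⟩ | ⟨-, fN, sN⟩ := hN
      · omega
    · rw [fst_new]
      obtain ⟨hs0, hr1, hQ1⟩ | ⟨hs1, fQ, sQ⟩ := hQ
      · subst hs0 hr1 hQ1
        have hq1 : q = 1 := by omega
        subst hq1
        simp only [pow_zero, TrivSqZeroExt.fst_one, pow_one, Nat.add_zero] at *
        linear_combination (1 + X) * fN - X * fP
      · have : (DualNumber.eps ^ s : D).fst = 0 := by
          rw [TrivSqZeroExt.fst_pow, DualNumber.fst_eps, zero_pow (by omega)]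
        rw [this, zero_mul, zero_mul, sub_zero, pow_add (1 + X) (q + s) s, ← fQ, ← fN]
        ring
    · rw [snd_new]
      obtain ⟨hs0, hr1, hQ1⟩ | ⟨hs1, fQ, sQ⟩ := hQ
      · subst hs0 hr1 hQ1
        have hq1 : q = 1 := by omega
        subst hq1
        have hH := H_chain p
        simp only [pow_zero, TrivSqZeroExt.fst_one, TrivSqZeroExt.snd_one, pow_one, Nat.add_zero] at *
        rw [show p + 1 + 1 = p + 2 from rfl, hH]
        linear_combination (1 + X) * sN + (1 + X) ^ 2 * fN - X * sP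
      · have hc := comb fN sN fQ sQ
        have hA := H_add (p := p + r) (q := q + s) (r := r) (s := s) (by omega) (by omega)
          (by rw [add_mul, add_mul, hd]; ring)
        rcases Nat.lt_or_ge s 2 with h2 | h2
        · obtain rfl : s = 1 := by omega
          rw [pow_one, DualNumber.fst_eps, DualNumber.snd_eps, hA, if_pos rfl, if_neg (by omega)]
          have e : (1 + X : ℤ⟦X⟧) ^ (q + 1 + 1) = (1 + X) ^ 2 * (1 + X) ^ q := by
            rw [← pow_add]; congr 1; omega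
          rw [e] at *
          linear_combination hc - X ^ (r + 1) * (1 + X) ^ 2 * fP
        · obtain ⟨k, rfl⟩ : ∃ k, s = k + 2 := ⟨s - 2, by omega⟩
          rw [eps_pow, hA, if_neg (by omega), if_neg (by omega)]
          simp only [TrivSqZeroExt.fst_zero, TrivSqZeroExt.snd_zero]
          linear_combination hc

theorem LC.zero : LC fun _ => 0 := ⟨fun _ => le_rfl, fun _ _ _ => Or.inr ⟨mul_zero _, mul_zero _⟩⟩

theorem G.lc {p q : ℕ} {N : D} (hc : Nat.Coprime p q) (h : G p q N) : LC fun n => coeff n N.snd := by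
  obtain ⟨-, -, rfl⟩ | ⟨h1, -, h2⟩ := h
  · simp only [TrivSqZeroExt.snd_one, map_zero]
    exact LC.zero
  · exact LC_snd h1 hc h2

end H46M
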