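import Mathlib

set_option autoImplicit false

/-!
# Markov polynomials (MP_251428_co)
-/

namespace H46M

open MvPolynomial

/-- The field of rational functions in the indeterminates `x = x 0`, `y = x 1`, `z = x 2`. -/
abbrev K : Type := FractionRing (MvPolynomial (Fin 3) ℤ)

/-- The indeterminate with number `i` as a rational function. -/
noncomputable def x (i : Fin 3) : K := algebraMap (MvPolynomial (Fin 3) ℤ) K (X i)

/-- The triples reached from `(x, y, z)` by moves and permutations; their entries are the Markov polynomials. -/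
inductive MarkovTriple : K → K → K → Prop
  | start : MarkovTriple (x 0) (x 1) (x 2)
  | move {A B C : K} : MarkovTriple A B C → MarkovTriple A B ((A ^ 2 + B ^ 2) / C)
  | swap {A B C : K} : MarkovTriple A B C → MarkovTriple B A C
  | rotate {A B C : K} : MarkovTriple A B C → MarkovTriple B C A

/-- `N` is the numerator of `M`: the polynomial `N` is divisible by none of `x`, `y`, `z` and
`M = N / (x ^ α * y ^ β * z ^ γ)` with integers `α`, `β`, `γ`. -/
def IsNumerator (M : K) (N : MvPolynomial (Fin 3) ℤ) : Prop :=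
  (∀ i, ¬ X i ∣ N) ∧ ∃ α β γ : ℤ,
    M = algebraMap (MvPolynomial (Fin 3) ℤ) K N / (x 0 ^ α * x 1 ^ β * x 2 ^ γ)

/-- `M = N / (x ^ α 0 * y ^ α 1 * z ^ α 2)` with a polynomial `N` divisible by none of `x`, `y`, `z` and integers
`α 0`, `α 1`, `α 2`. -/
def Reduced (M : K) (N : MvPolynomial (Fin 3) ℤ) (α : Fin 3 → ℤ) : Prop :=
  (∀ i, ¬ X i ∣ N) ∧ M = algebraMap (MvPolynomial (Fin 3) ℤ) K N / (x 0 ^ α 0 * x 1 ^ α 1 * x 2 ^ α 2)

end H46M
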