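import Pool.Agent.Lib.H46M.C

set_option autoImplicit false

namespace H46M

open PowerSeries

/-- the node `(p, q)` in the direction of the third variable -/
def F (p q : ℕ) (N : D) : Prop :=
  (1 + X) * N.fst = (1 + X) ^ (p + q) ∧ ((p = 0 ∧ q = 1 ∧ N = 1) ∨ (p = 1 ∧ q = 0 ∧ N = 1) ∨
    (1 ≤ p ∧ 1 ≤ q ∧ (1 + X) ^ 3 * N.snd =
      (1 + X) ^ (p + q) * (((q : ℤ⟦X⟧) - 1) * X + ((p : ℤ⟦X⟧) - 1))))

theorem fst_new' (P N Q e : D) (p m : ℕ) :
    ((TrivSqZeroExt.inl X + 1 + DualNumber.eps) * P * N -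
      (TrivSqZeroExt.inl X) ^ p * 1 ^ m * e * Q : D).fst =
      (1 + X) * P.fst * N.fst - e.fst * X ^ p * Q.fst := by
  simp [TrivSqZeroExt.fst_pow]
  ring

theorem snd_new' (P N Q e : D) (p m : ℕ) :
    ((TrivSqZeroExt.inl X + 1 + DualNumber.eps) * P * N -
      (TrivSqZeroExt.inl X) ^ p * 1 ^ m * e * Q : D).snd =
      (1 + X) * (P.fst * N.snd + P.snd * N.fst) + P.fst * N.fst -
        (e.fst * X ^ p * Q.snd + e.snd * X ^ p * Q.fst) := by
  rw [TrivSqZeroExt.inl_pow]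
  simp [DualNumber.snd_mul]
  ring

theorem comb' {Pf Ps Nf Ns h1 h2 : ℤ⟦X⟧} {m n : ℕ} (fP : (1 + X) * Pf = (1 + X) ^ m)
    (sP : (1 + X) ^ 3 * Ps = (1 + X) ^ m * h1) (fN : (1 + X) * Nf = (1 + X) ^ n)
    (sN : (1 + X) ^ 3 * Ns = (1 + X) ^ n * h2) :
    (1 + X) ^ 3 * ((1 + X) * (Pf * Ns + Ps * Nf) + Pf * Nf) = (1 + X) ^ (m + n) * (h1 + h2 + (1 + X)) := by
  have h := comb (h1 := h1 + (1 + X)) (h2 := h2 + (1 + X)) fP (by rw [sP]; ring) fN (by rw [sN]; ring)
  rw [h]; ring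

theorem dirC {p q r s : ℕ} {P Q N : D}
    (h : Tri (TrivSqZeroExt.inl X : D) 1 DualNumber.eps p q r s P Q N) :
    1 ≤ q ∧ 1 ≤ r ∧ F p q P ∧ F r s Q ∧ F (p + r) (q + s) N := by
  induction h with
  | base =>
    refine ⟨le_rfl, le_rfl, ⟨by simp, Or.inl ⟨rfl, rfl, rfl⟩⟩, ⟨by simp, Or.inr (Or.inl ⟨rfl, rfl, rfl⟩)⟩,
      ?_, Or.inr (Or.inr ⟨le_rfl, le_rfl, ?_⟩)⟩
    · simp only [TrivSqZeroExt.fst_add, TrivSqZeroExt.fst_one, TrivSqZeroExt.fst_inl]; ring
    · simp only [TrivSqZeroExt.snd_add, TrivSqZeroExt.snd_one, TrivSqZeroExt.snd_inl]; simp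
  | @left p q r s P Q N h ih =>
    obtain ⟨hq, hr, ⟨fP, hP⟩, ⟨fQ, hQ⟩, ⟨fN, hN⟩⟩ := ih
    have hd := h.det
    have e3 : (DualNumber.eps ^ (p + q) : D).fst = 0 := by
      rw [TrivSqZeroExt.fst_pow, DualNumber.fst_eps, zero_pow (by omega)]
    obtain ⟨h1, -, -⟩ | ⟨-, h1, -⟩ | ⟨-, -, sN⟩ := hN
    · omega
    · omega
    refine ⟨hq, by omega, ⟨fP, hP⟩, ⟨fN, Or.inr (Or.inr ⟨by omega, by omega, sN⟩)⟩, ?_,
      Or.inr (Or.inr ⟨by omega, by omega, ?_⟩)⟩
    · rw [fst_new', e3, zero_mul, zero_mul, sub_zero,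
        show p + (p + r) + (q + (q + s)) = (p + q) + (p + r + (q + s)) by ring, pow_add (1 + X) (p + q), ← fP, ← fN]
      ring
    · rw [snd_new']
      obtain ⟨hp0, hq1, hP1⟩ | ⟨-, h1, -⟩ | ⟨hp, -, sP⟩ := hP
      · subst hp0 hq1 hP1
        simp only [TrivSqZeroExt.fst_one, TrivSqZeroExt.snd_one, pow_zero, zero_add, pow_one,
          DualNumber.fst_eps, DualNumber.snd_eps] at *
        rw [show r + (1 + (1 + s)) = (r + s) + 2 by ring, pow_add]
        rw [show r + (1 + s) = (r + s) + 1 by ring, pow_add] at sN fN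
        push_cast at sN ⊢
        linear_combination (1 + X) * sN + (1 + X) ^ 2 * fN - (1 + X) ^ 2 * fQ
      · omega
      · have hc := comb' fP sP fN sN
        obtain ⟨k, hk⟩ : ∃ k, p + q = k + 2 := ⟨p + q - 2, by omega⟩
        rw [show p + (p + r) + (q + (q + s)) = (p + q) + (p + r + (q + s)) by ring]
        have e : (DualNumber.eps ^ (p + q) : D) = 0 := by rw [hk, eps_pow]
        rw [e]
        simp only [TrivSqZeroExt.fst_zero, TrivSqZeroExt.snd_zero]
        push_cast at hc ⊢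
        linear_combination hc
  | @right p q r s P Q N h ih =>
    obtain ⟨hq, hr, ⟨fP, hP⟩, ⟨fQ, hQ⟩, ⟨fN, hN⟩⟩ := ih
    have hd := h.det
    have e3 : (DualNumber.eps ^ (r + s) : D).fst = 0 := by
      rw [TrivSqZeroExt.fst_pow, DualNumber.fst_eps, zero_pow (by omega)]
    obtain ⟨h1, -, -⟩ | ⟨-, h1, -⟩ | ⟨-, -, sN⟩ := hN
    · omega
    · omega
    refine ⟨by omega, hr, ⟨fN, Or.inr (Or.inr ⟨by omega, by omega, sN⟩)⟩, ⟨fQ, hQ⟩, ?_,
      Or.inr (Or.inr ⟨by omega, by omega, ?_⟩)⟩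
    · rw [fst_new', e3, zero_mul, zero_mul, sub_zero,
        show p + r + r + (q + s + s) = (p + r + (q + s)) + (r + s) by ring, pow_add (1 + X) (p + r + (q + s)),
        ← fQ, ← fN]
      ring
    · rw [snd_new']
      obtain ⟨hr0, -, -⟩ | ⟨hr1, hs0, hQ1⟩ | ⟨-, hs, sQ⟩ := hQ
      · omega
      · subst hr1 hs0 hQ1
        simp only [TrivSqZeroExt.fst_one, TrivSqZeroExt.snd_one, add_zero, pow_one,
          DualNumber.fst_eps, DualNumber.snd_eps] at *
        rw [show p + 1 + 1 + q = (p + q) + 2 by ring, pow_add]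
        rw [show p + 1 + q = (p + q) + 1 by ring, pow_add] at sN fN
        push_cast at sN ⊢
        linear_combination (1 + X) * sN + (1 + X) ^ 2 * fN - X * (1 + X) ^ 2 * fP
      · have hc := comb' fN sN fQ sQ
        obtain ⟨k, hk⟩ : ∃ k, r + s = k + 2 := ⟨r + s - 2, by omega⟩
        rw [show p + r + r + (q + s + s) = (p + r + (q + s)) + (r + s) by ring]
        have e : (DualNumber.eps ^ (r + s) : D) = 0 := by rw [hk, eps_pow]
        rw [e]
        simp only [TrivSqZeroExt.fst_zero, TrivSqZeroExt.snd_zero]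
        push_cast at hc ⊢
        linear_combination hc

theorem F.lc {p q : ℕ} {N : D} (h : F p q N) : LC fun n => coeff n N.snd := by
  obtain ⟨-, ⟨-, -, rfl⟩ | ⟨-, -, rfl⟩ | ⟨hp, hq, h⟩⟩ := h
  · simp only [TrivSqZeroExt.snd_one, map_zero]
    exact LC.zero
  · simp only [TrivSqZeroExt.snd_one, map_zero]
    exact LC.zero
  · rcases Nat.lt_or_ge (p + q) 3 with h3 | h3
    · obtain rfl : p = 1 := by omega
      obtain rfl : q = 1 := by omega
      have h4 : N.snd = 0 := by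
        have h5 : ((1 + X : ℤ⟦X⟧)) ^ 3 ≠ 0 := by
          apply pow_ne_zero
          intro h
          have := congrArg (coeff (R := ℤ) 0) h
          simp at this
        apply mul_left_cancel₀ h5
        rw [h]; simp
      simp only [h4, map_zero]
      exact LC.zero
    · rw [cancel h3 h]
      refine LC.pow_mul ?_ _
      have hf : ∀ n, coeff n (((q : ℤ⟦X⟧) - 1) * X + ((p : ℤ⟦X⟧) - 1)) = match n with
          | 0 => (p : ℤ) - 1
          | 1 => q - 1
          | k + 2 => 0 := by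
        intro n
        rw [show (((q : ℤ⟦X⟧) - 1) * X + ((p : ℤ⟦X⟧) - 1)) = C ((q : ℤ) - 1) * X + C ((p : ℤ) - 1) by
          simp, map_add, coeff_C_mul, coeff_X, coeff_C]
        match n with
        | 0 => simp
        | 1 => simp
        | k + 2 => rw [if_neg (by omega), if_neg (by omega)]; simp
      refine ⟨fun n => ?_, fun i j _ => ?_⟩
      · rw [hf]
        match n with
        | 0 => simp only; omega
        | 1 => simp only; omega
        | k + 2 => simp only; omega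
      · have h0 : ∀ n, 0 ≤ coeff n (((q : ℤ⟦X⟧) - 1) * X + ((p : ℤ⟦X⟧) - 1)) := by
          intro n
          rw [hf]
          match n with
          | 0 => simp only; omega
          | 1 => simp only; omega
          | k + 2 => simp only; omega
        rw [hf (j + 2)]
        simp only [mul_zero]
        rcases (mul_nonneg (h0 (i + 1)) (h0 (j + 1))).lt_or_eq with h1 | h1
        · exact Or.inl h1
        · exact Or.inr ⟨trivial, h1.symm⟩

end H46M
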