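import Pool.Agent.Lib.H46M.U

set_option autoImplicit false

namespace H46M

open MvPolynomial

/-- the element with numerator `P` and label `(p, q)` -/
noncomputable def val (σ : Equiv.Perm (Fin 3)) (p q : ℕ) (P : MvPolynomial (Fin 3) ℤ) : K :=
  aeval (fun i => x (σ i) ^ 2) P * (x (σ 0) * x (σ 1) * x (σ 2)) /
    (x (σ 0) ^ p * x (σ 1) ^ q * x (σ 2) ^ (p + q))

/-- the canonical triples -/
inductive Can : K → K → K → Prop
  | init (σ : Equiv.Perm (Fin 3)) : Can (x (σ 0)) (x (σ 1)) (x (σ 2))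
  | tree (σ : Equiv.Perm (Fin 3)) {p q r s : ℕ} {P Q N : MvPolynomial (Fin 3) ℤ}
      (h : Tri (X 0 : MvPolynomial (Fin 3) ℤ) (X 1) (X 2) p q r s P Q N) :
      Can (val σ p q P) (val σ r s Q) (val σ (p + r) (q + s) N)

theorem aeval_expand (σ : Equiv.Perm (Fin 3)) (P : MvPolynomial (Fin 3) ℤ) :
    aeval (fun i => x (σ i) ^ 2) P = algebraMap (MvPolynomial (Fin 3) ℤ) K (num σ P) := by
  have : (aeval (R := ℤ) (fun i => x (σ i) ^ 2) : MvPolynomial (Fin 3) ℤ →ₐ[ℤ] K).toRingHom =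
      (algebraMap (MvPolynomial (Fin 3) ℤ) K).comp
        ((rename (R := ℤ) σ).toRingHom.comp (expand (R := ℤ) (σ := Fin 3) 2).toRingHom) := by
    apply MvPolynomial.ringHom_ext
    · intro r
      simp
    · intro i
      simp [x]
  exact congrArg (fun φ : MvPolynomial (Fin 3) ℤ →+* K => φ P) this

theorem aeval_ne (σ : Equiv.Perm (Fin 3)) {P : MvPolynomial (Fin 3) ℤ} (h : Node P) :
    aeval (fun i => x (σ i) ^ 2) P ≠ 0 := by
  rw [aeval_expand, ne_eq, map_eq_zero_iff _ (IsFractionRing.injective (MvPolynomial (Fin 3) ℤ) K)]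
  intro h0
  apply num_ndvd σ h 0
  rw [h0]
  exact dvd_zero _

theorem val_ne (σ : Equiv.Perm (Fin 3)) (p q : ℕ) {P : MvPolynomial (Fin 3) ℤ} (h : Node P) :
    val σ p q P ≠ 0 := by
  have h0 := x_ne (σ 0)
  have h1 := x_ne (σ 1)
  have h2 := x_ne (σ 2)
  have h3 := aeval_ne σ h
  rw [val]
  positivity

theorem isNumerator_val (σ : Equiv.Perm (Fin 3)) (p q : ℕ) {P : MvPolynomial (Fin 3) ℤ} (h : Node P) :
    IsNumerator (val σ p q P) (num σ P) := by
  refine ⟨num_ndvd σ h, ?_⟩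
  let e : Fin 3 → ℤ := fun i => ![(p : ℤ) - 1, (q : ℤ) - 1, (p : ℤ) + q - 1] (σ.symm i)
  refine ⟨e 0, e 1, e 2, ?_⟩
  have h0 := x_ne (σ 0)
  have h1 := x_ne (σ 1)
  have h2 := x_ne (σ 2)
  have e1 : x 0 ^ e 0 * x 1 ^ e 1 * x 2 ^ e 2 =
      x (σ 0) ^ ((p : ℤ) - 1) * x (σ 1) ^ ((q : ℤ) - 1) * x (σ 2) ^ ((p : ℤ) + q - 1) := by
    have a := Fin.prod_univ_three fun i => x i ^ e i
    have b := Fin.prod_univ_three fun i => x (σ i) ^ e (σ i)
    rw [← a, ← Equiv.prod_comp σ (fun i => x i ^ e i), b]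
    simp [e]
  rw [e1, val, aeval_expand, zpow_sub₀ h0, zpow_sub₀ h1, zpow_sub₀ h2, zpow_add₀ h2]
  simp only [zpow_natCast, zpow_one]
  field_simp
  ring

theorem markov_val (σ : Equiv.Perm (Fin 3)) {p q r s : ℕ} {P Q N : MvPolynomial (Fin 3) ℤ}
    (h : Tri (X 0 : MvPolynomial (Fin 3) ℤ) (X 1) (X 2) p q r s P Q N) :
    val σ p q P ^ 2 + val σ r s Q ^ 2 + val σ (p + r) (q + s) N ^ 2 =
      (x (σ 0) ^ 2 + x (σ 1) ^ 2 + x (σ 2) ^ 2) / (x (σ 0) * x (σ 1) * x (σ 2)) *
        (val σ p q P * val σ r s Q * val σ (p + r) (q + s) N) := by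
  have hm := (h.map (aeval (R := ℤ) (fun i => x (σ i) ^ 2)).toRingHom).markov
  simp only [AlgHom.toRingHom_eq_coe, RingHom.coe_coe, aeval_X] at hm
  have h0 := x_ne (σ 0)
  have h1 := x_ne (σ 1)
  have h2 := x_ne (σ 2)
  simp only [val]
  set P' := aeval (R := ℤ) (fun i => x (σ i) ^ 2) P
  set Q' := aeval (R := ℤ) (fun i => x (σ i) ^ 2) Q
  set N' := aeval (R := ℤ) (fun i => x (σ i) ^ 2) N
  set a := x (σ 0)
  set b := x (σ 1)
  set c := x (σ 2)
  simp only [pow_add, pow_mul] at hm ⊢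
  field_simp
  ring_nf at hm ⊢
  linear_combination hm

theorem vieta_left (σ : Equiv.Perm (Fin 3)) (p q r s : ℕ) (P Q N : MvPolynomial (Fin 3) ℤ) :
    val σ (p + (p + r)) (q + (q + s)) ((X 0 + X 1 + X 2) * P * N - X 0 ^ p * X 1 ^ q * X 2 ^ (p + q) * Q) =
      (x (σ 0) ^ 2 + x (σ 1) ^ 2 + x (σ 2) ^ 2) / (x (σ 0) * x (σ 1) * x (σ 2)) *
        (val σ p q P * val σ (p + r) (q + s) N) - val σ r s Q := by
  have h0 := x_ne (σ 0)
  have h1 := x_ne (σ 1)
  have h2 := x_ne (σ 2)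
  simp only [val, map_sub, map_mul, map_add, map_pow, aeval_X]
  set P' := aeval (R := ℤ) (fun i => x (σ i) ^ 2) P
  set Q' := aeval (R := ℤ) (fun i => x (σ i) ^ 2) Q
  set N' := aeval (R := ℤ) (fun i => x (σ i) ^ 2) N
  set a := x (σ 0)
  set b := x (σ 1)
  set c := x (σ 2)
  simp only [pow_add]
  field_simp
  ring

theorem vieta_right (σ : Equiv.Perm (Fin 3)) (p q r s : ℕ) (P Q N : MvPolynomial (Fin 3) ℤ) :
    val σ (p + r + r) (q + s + s) ((X 0 + X 1 + X 2) * N * Q - X 0 ^ r * X 1 ^ s * X 2 ^ (r + s) * P) =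
      (x (σ 0) ^ 2 + x (σ 1) ^ 2 + x (σ 2) ^ 2) / (x (σ 0) * x (σ 1) * x (σ 2)) *
        (val σ (p + r) (q + s) N * val σ r s Q) - val σ p q P := by
  have h0 := x_ne (σ 0)
  have h1 := x_ne (σ 1)
  have h2 := x_ne (σ 2)
  simp only [val, map_sub, map_mul, map_add, map_pow, aeval_X]
  set P' := aeval (R := ℤ) (fun i => x (σ i) ^ 2) P
  set Q' := aeval (R := ℤ) (fun i => x (σ i) ^ 2) Q
  set N' := aeval (R := ℤ) (fun i => x (σ i) ^ 2) N
  set a := x (σ 0)
  set b := x (σ 1)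
  set c := x (σ 2)
  simp only [pow_add]
  field_simp
  ring

theorem exch_left (σ : Equiv.Perm (Fin 3)) {p q r s : ℕ} {P Q N : MvPolynomial (Fin 3) ℤ}
    (h : Tri (X 0 : MvPolynomial (Fin 3) ℤ) (X 1) (X 2) p q r s P Q N) :
    val σ (p + (p + r)) (q + (q + s)) ((X 0 + X 1 + X 2) * P * N - X 0 ^ p * X 1 ^ q * X 2 ^ (p + q) * Q) =
      (val σ p q P ^ 2 + val σ (p + r) (q + s) N ^ 2) / val σ r s Q := by
  rw [eq_div_iff (val_ne σ r s h.good.2.1), vieta_left]
  linear_combination -(markov_val σ h)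

theorem exch_right (σ : Equiv.Perm (Fin 3)) {p q r s : ℕ} {P Q N : MvPolynomial (Fin 3) ℤ}
    (h : Tri (X 0 : MvPolynomial (Fin 3) ℤ) (X 1) (X 2) p q r s P Q N) :
    val σ (p + r + r) (q + s + s) ((X 0 + X 1 + X 2) * N * Q - X 0 ^ r * X 1 ^ s * X 2 ^ (r + s) * P) =
      (val σ (p + r) (q + s) N ^ 2 + val σ r s Q ^ 2) / val σ p q P := by
  rw [eq_div_iff (val_ne σ p q h.good.1), vieta_right]
  linear_combination -(markov_val σ h)

/-- the triples up to order -/
def Cls (A B C : K) : Prop := ∃ A' B' C', Can A' B' C' ∧ ({A, B, C} : Multiset K) = {A', B', C'}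

theorem Cls.of {A B C : K} (h : Can A B C) : Cls A B C := ⟨A, B, C, h, rfl⟩

theorem Cls.congr {A B C A' B' C' : K} (h : Cls A B C)
    (e : ({A', B', C'} : Multiset K) = {A, B, C}) : Cls A' B' C' := by
  obtain ⟨A1, B1, C1, h1, h2⟩ := h
  exact ⟨A1, B1, C1, h1, e.trans h2⟩

theorem ms_rot (A B C : K) : ({A, B, C} : Multiset K) = {B, C, A} := by
  simp only [Multiset.insert_eq_cons]
  rw [Multiset.cons_swap A B]
  congr 1
  exact Multiset.cons_swap A C 0

theorem ms_swap (A B C : K) : ({A, B, C} : Multiset K) = {B, A, C} := by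
  simp only [Multiset.insert_eq_cons]
  exact Multiset.cons_swap A B _

theorem base_val0 (σ : Equiv.Perm (Fin 3)) : val σ 0 1 1 = x (σ 0) := by
  have h0 := x_ne (σ 0)
  have h1 := x_ne (σ 1)
  have h2 := x_ne (σ 2)
  simp only [val, map_one]
  field_simp
  ring

theorem base_val1 (σ : Equiv.Perm (Fin 3)) : val σ 1 0 1 = x (σ 1) := by
  have h0 := x_ne (σ 0)
  have h1 := x_ne (σ 1)
  have h2 := x_ne (σ 2)
  simp only [val, map_one]
  field_simp
  ring

theorem base_val2 (σ : Equiv.Perm (Fin 3)) :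
    val σ (0 + 1) (1 + 0) (X 0 + X 1) = (x (σ 0) ^ 2 + x (σ 1) ^ 2) / x (σ 2) := by
  have h0 := x_ne (σ 0)
  have h1 := x_ne (σ 1)
  have h2 := x_ne (σ 2)
  simp only [val, map_add, aeval_X]
  field_simp
  ring

theorem init_step (σ : Equiv.Perm (Fin 3)) :
    Cls (x (σ 0)) (x (σ 1)) ((x (σ 0) ^ 2 + x (σ 1) ^ 2) / x (σ 2)) := by
  have h := Can.tree σ Tri.base
  rw [base_val0, base_val1, base_val2] at h
  exact Cls.of h

/-- one move from a canonical triple, at each of the three entries -/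
theorem Can.step {A B C : K} (h : Can A B C) :
    Cls A B ((A ^ 2 + B ^ 2) / C) ∧ Cls B C ((B ^ 2 + C ^ 2) / A) ∧ Cls C A ((C ^ 2 + A ^ 2) / B) := by
  cases h with
  | init σ =>
    refine ⟨init_step σ, ?_, ?_⟩
    · have := init_step (σ * finRotate 3)
      simpa using this
    · have := init_step (σ * (finRotate 3)⁻¹)
      rw [Equiv.Perm.mul_apply, Equiv.Perm.mul_apply, Equiv.Perm.mul_apply,
        show (finRotate 3)⁻¹ 0 = 2 by decide, show (finRotate 3)⁻¹ 1 = 0 by decide,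
        show (finRotate 3)⁻¹ 2 = 1 by decide] at this
      exact this
  | @tree σ p q r s P Q N h =>
    refine ⟨?_, ?_, ?_⟩
    · -- backwards
      cases h with
      | base =>
        rw [base_val0, base_val1, base_val2]
        have h0 := x_ne (σ 0)
        have h1 := x_ne (σ 1)
        have h2 := x_ne (σ 2)
        have e : (x (σ 0) ^ 2 + x (σ 1) ^ 2) / ((x (σ 0) ^ 2 + x (σ 1) ^ 2) / x (σ 2)) = x (σ 2) := by
          have h3 := val_ne σ (0 + 1) (1 + 0) (Tri.good Tri.base).2.2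
          rw [base_val2] at h3
          have h4 : x (σ 0) ^ 2 + x (σ 1) ^ 2 ≠ 0 := fun h5 => h3 (by rw [h5, zero_div])
          field_simp
        rw [e]
        exact Cls.of (Can.init σ)
      | @left _ _ r s _ Q N h =>
        have h1 := exch_left σ h
        have hv := val_ne σ r s h.good.2.1
        have hn := val_ne σ (p + (p + r)) (q + (q + s)) (h.left).good.2.2
        rw [eq_div_iff hv] at h1
        rw [← h1, mul_div_cancel_left₀ _ hn]
        refine (Cls.of (Can.tree σ h)).congr ?_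
        simp only [Multiset.insert_eq_cons]
        congr 1
        exact Multiset.cons_swap _ _ 0
      | @right p q _ _ P _ N h =>
        have h1 := exch_right σ h
        have hv := val_ne σ p q h.good.1
        have hn := val_ne σ (p + r + r) (q + s + s) (h.right).good.2.2
        rw [eq_div_iff hv] at h1
        rw [← h1, mul_div_cancel_left₀ _ hn]
        refine (Cls.of (Can.tree σ h)).congr ?_
        rw [ms_rot]
        exact ms_swap _ _ _
    · have h1 := Cls.of (Can.tree σ h.right)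
      rw [exch_right σ h] at h1
      refine h1.congr ?_
      rw [add_comm (val σ r s Q ^ 2)]
      exact ms_swap _ _ _
    · have h1 := Cls.of (Can.tree σ h.left)
      rw [exch_left σ h] at h1
      refine h1.congr ?_
      rw [add_comm (val σ (p + r) (q + s) N ^ 2)]
      exact ms_swap _ _ _

theorem ms_cases {A B C A' B' C' : K} (h : ({A, B, C} : Multiset K) = {A', B', C'}) :
    (C = C' ∧ ({A, B} : Multiset K) = {A', B'}) ∨ (C = A' ∧ ({A, B} : Multiset K) = {B', C'}) ∨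
      (C = B' ∧ ({A, B} : Multiset K) = {C', A'}) := by
  have h1 : ({C, A, B} : Multiset K) = {A', B', C'} := by
    rw [← h, ms_rot]
  have h2 : C ∈ ({A', B', C'} : Multiset K) := by
    rw [← h1]; simp
  simp only [Multiset.insert_eq_cons, Multiset.mem_cons, Multiset.mem_singleton] at h2
  rcases h2 with rfl | rfl | rfl
  · right; left
    refine ⟨rfl, ?_⟩
    simp only [Multiset.insert_eq_cons] at h1 ⊢
    exact Multiset.cons_inj_right _ |>.mp h1
  · right; right
    refine ⟨rfl, ?_⟩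
    rw [ms_rot A' C C'] at h1
    simp only [Multiset.insert_eq_cons] at h1 ⊢
    exact Multiset.cons_inj_right _ |>.mp h1
  · left
    refine ⟨rfl, ?_⟩
    rw [ms_rot A' B' C, ms_rot B' C A'] at h1
    simp only [Multiset.insert_eq_cons] at h1 ⊢
    exact Multiset.cons_inj_right _ |>.mp h1

theorem sq_sum {A B A' B' : K} (h : ({A, B} : Multiset K) = {A', B'}) : A ^ 2 + B ^ 2 = A' ^ 2 + B' ^ 2 := by
  have := congrArg (fun m : Multiset K => (m.map fun t => t ^ 2).sum) h
  simpa using this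

theorem cls_of_markov {A B C : K} (h : MarkovTriple A B C) : Cls A B C := by
  induction h with
  | start => exact Cls.of (Can.init 1)
  | @move A B C _ ih =>
    obtain ⟨A', B', C', h1, h2⟩ := ih
    obtain ⟨s1, s2, s3⟩ := h1.step
    rcases ms_cases h2 with ⟨rfl, h3⟩ | ⟨rfl, h3⟩ | ⟨rfl, h3⟩
    · refine s1.congr ?_
      rw [sq_sum h3, ms_rot, ms_rot]
      conv_rhs => rw [ms_rot, ms_rot]
      simp only [Multiset.insert_eq_cons] at h3 ⊢
      rw [h3]
    · refine s2.congr ?_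
      rw [sq_sum h3, ms_rot, ms_rot]
      conv_rhs => rw [ms_rot, ms_rot]
      simp only [Multiset.insert_eq_cons] at h3 ⊢
      rw [h3]
    · refine s3.congr ?_
      rw [sq_sum h3, ms_rot, ms_rot]
      conv_rhs => rw [ms_rot, ms_rot]
      simp only [Multiset.insert_eq_cons] at h3 ⊢
      rw [h3]
  | swap _ ih => exact ih.congr (ms_swap _ _ _)
  | rotate _ ih => exact ih.congr (ms_rot _ _ _).symm

theorem one_good : Good 1 := by
  intro i j k h1 h2 h3 f hf
  have h4 : (f + Finsupp.single j 4 : Fin 3 →₀ ℕ) ≠ 0 := by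
    intro h
    have := DFunLike.congr_fun h i
    simp [hf] at this
  have h5 : (f + Finsupp.single j 2 + Finsupp.single k 2 : Fin 3 →₀ ℕ) ≠ 0 := by
    intro h
    have := DFunLike.congr_fun h i
    simp [hf] at this
  have e1 : (1 : MvPolynomial (Fin 3) ℤ).coeff (f + Finsupp.single j 4) = 0 := by
    rw [MvPolynomial.coeff_one, if_neg h4.symm]
  have e2 : (1 : MvPolynomial (Fin 3) ℤ).coeff (f + Finsupp.single j 2 + Finsupp.single k 2) = 0 := by
    rw [MvPolynomial.coeff_one, if_neg h5.symm]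
  rw [e1, e2]
  exact Or.inr ⟨zero_mul _, rfl⟩

theorem isNumerator_x (i : Fin 3) : IsNumerator (x i) 1 := by
  refine ⟨fun j h => ?_, ?_⟩
  · have := not_dvd (P := 1) (w := j) (m := 0) rfl (by simp)
    exact this h
  · refine ⟨if i = 0 then -1 else 0, if i = 1 then -1 else 0, if i = 2 then -1 else 0, ?_⟩
    rw [map_one]
    fin_cases i <;> simp

theorem Can.good {A B C : K} (h : Can A B C) : ∀ M ∈ ({A, B, C} : Multiset K),
    ∃ N, IsNumerator M N ∧ Good N := by
  intro M hM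
  simp only [Multiset.insert_eq_cons, Multiset.mem_cons, Multiset.mem_singleton] at hM
  cases h with
  | init σ =>
    rcases hM with rfl | rfl | rfl
    all_goals exact ⟨1, isNumerator_x _, one_good⟩
  | @tree σ p q r s P Q N h =>
    obtain ⟨g1, g2, g3⟩ := h.good
    rcases hM with rfl | rfl | rfl
    · exact ⟨_, isNumerator_val σ _ _ g1, num_good σ g1⟩
    · exact ⟨_, isNumerator_val σ _ _ g2, num_good σ g2⟩
    · exact ⟨_, isNumerator_val σ _ _ g3, num_good σ g3⟩

theorem main {A B C : K} (h : MarkovTriple A B C) :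
    (∃! N, IsNumerator A N) ∧ ∀ N, IsNumerator A N → Good N := by
  obtain ⟨A', B', C', h1, h2⟩ := cls_of_markov h
  obtain ⟨N, h3, h4⟩ := h1.good A (by rw [← h2]; simp)
  refine ⟨⟨N, h3, fun N' h5 => unique h5 h3⟩, fun N' h5 => ?_⟩
  rw [unique h5 h3]
  exact h4

end H46M
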