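import Pool.Agent.Lib.H79W.T2
import Pool.Agent.Lib.H46M.T

set_option autoImplicit false

namespace H46M

open MvPolynomial

theorem toMarkov {X Y Z : K} (h : H79W.Triple X Y Z) : MarkovTriple X Y Z := by
  induction h with
  | start => exact MarkovTriple.start
  | move X Y Z _ ih => exact ih.move
  | swap X Y Z _ ih => exact ih.swap
  | swap' X Y Z _ ih => exact ih.rotate.rotate.swap

theorem pmon_add (σ : Equiv.Perm (Fin 3)) (i j l : ℕ) (u : Fin 3) (n : ℕ) :
    H79W.pmon σ i j l + Finsupp.single (σ u) n =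
      H79W.pmon σ (i + if u = 0 then n else 0) (j + if u = 1 then n else 0) (l + if u = 2 then n else 0) := by
  fin_cases u
  · simp +decide only [H79W.pmon, if_true, if_false, add_zero]
    simp only [Finsupp.single_add]
    abel_nf
  · simp +decide only [H79W.pmon, if_true, if_false, add_zero]
    simp only [Finsupp.single_add]
    abel_nf
  · simp +decide only [H79W.pmon, if_true, if_false, add_zero]
    simp only [Finsupp.single_add]
    abel_nf

theorem pmon_apply (σ : Equiv.Perm (Fin 3)) (i j l : ℕ) (u : Fin 3) :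
    H79W.pmon σ i j l (σ u) = ![i, j, l] u := by
  fin_cases u <;> simp [H79W.pmon, Finsupp.single_apply, σ.injective.eq_iff]

theorem glue {X' Y' M : K} (h : H79W.Triple X' Y' M) {σ : Equiv.Perm (Fin 3)} {p q : ℕ}
    {N : MvPolynomial (Fin 3) ℤ} (hN : H79W.St σ M p q N) :
    (∀ i, ¬ X i ∣ expand 2 N) ∧ (∀ N', IsNumerator M N' → N' = expand 2 N) ∧
    (∀ i j, Ineq (N.coeff (H79W.pmon σ i (j + 2) 1)) (N.coeff (H79W.pmon σ (i + 2) j 1))
      (N.coeff (H79W.pmon σ (i + 1) (j + 1) 1))) ∧
    (∀ i l, Ineq (N.coeff (H79W.pmon σ i 1 (l + 2))) (N.coeff (H79W.pmon σ (i + 2) 1 l))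
      (N.coeff (H79W.pmon σ (i + 1) 1 (l + 1)))) ∧
    (∀ j l, Ineq (N.coeff (H79W.pmon σ 1 (j + 2) l)) (N.coeff (H79W.pmon σ 1 j (l + 2)))
      (N.coeff (H79W.pmon σ 1 (j + 1) (l + 1)))) := by
  obtain ⟨h1, h2, h3, -, -, -⟩ := hN
  have hnd : ∀ i, ¬ X i ∣ expand 2 N := by
    have key : ∀ (u : Fin 3) (i j : ℕ), i + j = p + q - 1 → H79W.pmon σ i j 0 (σ u) = 0 →
        ¬ X (σ u) ∣ expand 2 N := by
      intro u i j hij h0
      apply not_dvd (m := 2 • H79W.pmon σ i j 0)
      · rw [Finsupp.smul_apply, h0, smul_zero]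
      · rw [coeff_expand_smul 2 two_ne_zero, h3 i j hij]
        have := Nat.choose_pos (show i ≤ i + j by omega)
        exact_mod_cast this.ne'
    intro t
    obtain ⟨u, rfl⟩ := σ.surjective t
    fin_cases u
    · exact key 0 0 (p + q - 1) (by omega) (by rw [pmon_apply]; rfl)
    · exact key 1 (p + q - 1) 0 (by omega) (by rw [pmon_apply]; rfl)
    · exact key 2 (p + q - 1) 0 (by omega) (by rw [pmon_apply]; rfl)
  have hnum : IsNumerator M (expand 2 N) := by
    refine ⟨hnd, ?_⟩
    let e : Fin 3 → ℕ := fun t => ![p - 1, q - 1, p + q - 1] (σ.symm t)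
    refine ⟨e 0, e 1, e 2, ?_⟩
    have hv : ∀ t, H79W.var t = x t := fun _ => rfl
    have e1 : x 0 ^ (e 0 : ℤ) * x 1 ^ (e 1 : ℤ) * x 2 ^ (e 2 : ℤ) =
        x (σ 0) ^ (p - 1) * x (σ 1) ^ (q - 1) * x (σ 2) ^ (p + q - 1) := by
      have a := Fin.prod_univ_three fun i => x i ^ e i
      have b := Fin.prod_univ_three fun i => x (σ i) ^ e (σ i)
      rw [zpow_natCast, zpow_natCast, zpow_natCast, ← a, ← Equiv.prod_comp σ (fun i => x i ^ e i), b]
      simp [e]
    rw [e1, eq_div_iff]
    · rw [hv, hv, hv] at h1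
      exact h1
    · exact mul_ne_zero (mul_ne_zero (pow_ne_zero _ (x_ne _)) (pow_ne_zero _ (x_ne _))) (pow_ne_zero _ (x_ne _))
  have hM : MarkovTriple M X' Y' := (toMarkov h).rotate.rotate
  have hG := (main hM).2 _ hnum
  refine ⟨hnd, fun N' h' => unique h' hnum, fun i j => ?_, fun i l => ?_, fun j l => ?_⟩
  all_goals
    have d01 : σ 0 ≠ σ 1 := fun e => absurd (σ.injective e) (by decide)
    have d12 : σ 1 ≠ σ 2 := fun e => absurd (σ.injective e) (by decide)
    have d02 : σ 0 ≠ σ 2 := fun e => absurd (σ.injective e) (by decide)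
  · have := hG (σ 2) (σ 1) (σ 0) d12.symm d01.symm d02.symm (2 • H79W.pmon σ i j 1)
      (by rw [Finsupp.smul_apply, pmon_apply]; rfl)
    have a1 : 2 • H79W.pmon σ i j 1 + Finsupp.single (σ 1) 4 = 2 • H79W.pmon σ i (j + 2) 1 := by
      have := pmon_add σ i j 1 1 2
      simp +decide only [if_true, if_false, add_zero] at this
      rw [← this, smul_add, Finsupp.smul_single]; rfl
    have a2 : 2 • H79W.pmon σ i j 1 + Finsupp.single (σ 0) 4 = 2 • H79W.pmon σ (i + 2) j 1 := by
      have := pmon_add σ i j 1 0 2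
      simp +decide only [if_true, if_false, add_zero] at this
      rw [← this, smul_add, Finsupp.smul_single]; rfl
    have a3 : 2 • H79W.pmon σ i j 1 + Finsupp.single (σ 1) 2 + Finsupp.single (σ 0) 2 =
        2 • H79W.pmon σ (i + 1) (j + 1) 1 := by
      have b1 := pmon_add σ i j 1 1 1
      have b2 := pmon_add σ i (j + 1) 1 0 1
      simp +decide only [if_true, if_false, add_zero] at b1 b2
      rw [← b2, ← b1, smul_add, smul_add, Finsupp.smul_single, Finsupp.smul_single]; rfl
    rw [a1, a2, a3, coeff_expand_smul 2 two_ne_zero, coeff_expand_smul 2 two_ne_zero,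
      coeff_expand_smul 2 two_ne_zero] at this
    exact this
  · have := hG (σ 1) (σ 2) (σ 0) d12 d02.symm d01.symm (2 • H79W.pmon σ i 1 l)
      (by rw [Finsupp.smul_apply, pmon_apply]; rfl)
    have a1 : 2 • H79W.pmon σ i 1 l + Finsupp.single (σ 2) 4 = 2 • H79W.pmon σ i 1 (l + 2) := by
      have := pmon_add σ i 1 l 2 2
      simp +decide only [if_true, if_false, add_zero] at this
      rw [← this, smul_add, Finsupp.smul_single]; rfl
    have a2 : 2 • H79W.pmon σ i 1 l + Finsupp.single (σ 0) 4 = 2 • H79W.pmon σ (i + 2) 1 l := by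
      have := pmon_add σ i 1 l 0 2
      simp +decide only [if_true, if_false, add_zero] at this
      rw [← this, smul_add, Finsupp.smul_single]; rfl
    have a3 : 2 • H79W.pmon σ i 1 l + Finsupp.single (σ 2) 2 + Finsupp.single (σ 0) 2 =
        2 • H79W.pmon σ (i + 1) 1 (l + 1) := by
      have b1 := pmon_add σ i 1 l 2 1
      have b2 := pmon_add σ i 1 (l + 1) 0 1
      simp +decide only [if_true, if_false, add_zero] at b1 b2
      rw [← b2, ← b1, smul_add, smul_add, Finsupp.smul_single, Finsupp.smul_single]; rfl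
    rw [a1, a2, a3, coeff_expand_smul 2 two_ne_zero, coeff_expand_smul 2 two_ne_zero,
      coeff_expand_smul 2 two_ne_zero] at this
    exact this
  · have := hG (σ 0) (σ 1) (σ 2) d01 d12 d02 (2 • H79W.pmon σ 1 j l)
      (by rw [Finsupp.smul_apply, pmon_apply]; rfl)
    have a1 : 2 • H79W.pmon σ 1 j l + Finsupp.single (σ 1) 4 = 2 • H79W.pmon σ 1 (j + 2) l := by
      have := pmon_add σ 1 j l 1 2
      simp +decide only [if_true, if_false, add_zero] at this
      rw [← this, smul_add, Finsupp.smul_single]; rfl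
    have a2 : 2 • H79W.pmon σ 1 j l + Finsupp.single (σ 2) 4 = 2 • H79W.pmon σ 1 j (l + 2) := by
      have := pmon_add σ 1 j l 2 2
      simp +decide only [if_true, if_false, add_zero] at this
      rw [← this, smul_add, Finsupp.smul_single]; rfl
    have a3 : 2 • H79W.pmon σ 1 j l + Finsupp.single (σ 1) 2 + Finsupp.single (σ 2) 2 =
        2 • H79W.pmon σ 1 (j + 1) (l + 1) := by
      have b1 := pmon_add σ 1 j l 1 1
      have b2 := pmon_add σ 1 (j + 1) l 2 1
      simp +decide only [if_true, if_false, add_zero] at b1 b2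
      rw [← b2, ← b1, smul_add, smul_add, Finsupp.smul_single, Finsupp.smul_single]; rfl
    rw [a1, a2, a3, coeff_expand_smul 2 two_ne_zero, coeff_expand_smul 2 two_ne_zero,
      coeff_expand_smul 2 two_ne_zero] at this
    exact this

end H46M
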