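import Pool.Agent.Lib.H46M.E

set_option autoImplicit false

namespace H46M

open PowerSeries

theorem univ3 : ∀ u w v : Fin 3, u ≠ w → w ≠ v → u ≠ v →
    (Finset.univ : Finset (Fin 3)) = {u, w, v} := by decide

theorem prod3 {M : Type} [CommMonoid M] {u w v : Fin 3} (h1 : u ≠ w) (h2 : w ≠ v) (h3 : u ≠ v)
    (g : Fin 3 → M) : ∏ i, g i = g u * g w * g v := by
  rw [univ3 u w v h1 h2 h3, Finset.prod_insert (by simp [h1, h3]), Finset.prod_insert (by simp [h2]),
    Finset.prod_singleton, mul_assoc]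

theorem sum3 {M : Type} [AddCommMonoid M] {u w v : Fin 3} (h1 : u ≠ w) (h2 : w ≠ v) (h3 : u ≠ v)
    (g : Fin 3 → M) : ∑ i, g i = g u + g w + g v := by
  rw [univ3 u w v h1 h2 h3, Finset.sum_insert (by simp [h1, h3]), Finset.sum_insert (by simp [h2]),
    Finset.sum_singleton, add_assoc]

theorem deg_eq {P : MvPolynomial (Fin 3) ℤ} {d : ℕ} (hP : P.IsHomogeneous d) {m : Fin 3 →₀ ℕ}
    (h : P.coeff m ≠ 0) : m.degree = d := by
  rw [Finsupp.degree_eq_weight_one]
  exact hP h

theorem coeff_snd {u w v : Fin 3} (h1 : u ≠ w) (h2 : w ≠ v) (h3 : u ≠ v) {g : Fin 3 → D}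
    (gu : g u = 1) (gw : g w = DualNumber.eps) (gv : g v = TrivSqZeroExt.inl X)
    {P : MvPolynomial (Fin 3) ℤ} {d : ℕ} (hP : P.IsHomogeneous d) (f : Fin 3 →₀ ℕ) (hf : f w = 1)
    (hd : f u + f w + f v = d) : coeff (f v) (MvPolynomial.aeval g P).snd = P.coeff f := by
  classical
  rw [MvPolynomial.aeval_def, MvPolynomial.eval₂_eq', TrivSqZeroExt.snd_sum, map_sum]
  have key : ∀ m ∈ P.support, coeff (f v) (TrivSqZeroExt.snd
      ((algebraMap ℤ D) (MvPolynomial.coeff m P) * ∏ i, g i ^ m i)) =
      if m = f then P.coeff f else 0 := by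
    intro m hm
    have hm' : m u + m w + m v = d := by
      have h0 := deg_eq hP (MvPolynomial.mem_support_iff.mp hm)
      rw [Finsupp.degree_eq_sum, sum3 h1 h2 h3] at h0
      exact h0
    rw [prod3 h1 h2 h3 fun i => g i ^ m i]
    simp only [gu, gw, gv, one_pow, one_mul]
    rw [← Algebra.smul_def, TrivSqZeroExt.snd_smul, TrivSqZeroExt.inl_pow, DualNumber.snd_mul,
      TrivSqZeroExt.snd_inl, TrivSqZeroExt.fst_inl, mul_zero, zero_add]
    split_ifs with e
    · rw [e, hf, pow_one, DualNumber.snd_eps, one_mul, map_zsmul, coeff_X_pow_self, smul_eq_mul, mul_one]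
    · by_cases e1 : m w = 1
      · have e2 : m v ≠ f v := by
          intro e2
          apply e
          ext i
          have : i ∈ ({u, w, v} : Finset (Fin 3)) := by
            rw [← univ3 u w v h1 h2 h3]; exact Finset.mem_univ i
          simp only [Finset.mem_insert, Finset.mem_singleton] at this
          rcases this with rfl | rfl | rfl
          · omega
          · omega
          · exact e2
        rw [e1, pow_one, DualNumber.snd_eps, one_mul, map_zsmul, coeff_X_pow, if_neg (Ne.symm e2), smul_zero]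
      · have e2 : TrivSqZeroExt.snd ((DualNumber.eps : D) ^ m w) = 0 := by
          rcases Nat.eq_zero_or_pos (m w) with e3 | e3
          · rw [e3, pow_zero, TrivSqZeroExt.snd_one]
          · obtain ⟨k, hk⟩ : ∃ k, m w = k + 2 := ⟨m w - 2, by omega⟩
            rw [hk, eps_pow, TrivSqZeroExt.snd_zero]
        rw [e2, zero_mul, smul_zero, map_zero]
  rw [Finset.sum_congr rfl key, Finset.sum_ite_eq']
  split_ifs with e
  · rfl
  · exact (MvPolynomial.notMem_support_iff.mp e).symm

/-- `A * B < C ^ 2` or both sides are zero -/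
def Ineq (A B C : ℤ) : Prop := A * B < C ^ 2 ∨ (A * B = 0 ∧ C = 0)

/-- the inequality on the line next to the side -/
theorem line {u w v : Fin 3} (h1 : u ≠ w) (h2 : w ≠ v) (h3 : u ≠ v) {g : Fin 3 → D}
    (gu : g u = 1) (gw : g w = DualNumber.eps) (gv : g v = TrivSqZeroExt.inl X)
    {P : MvPolynomial (Fin 3) ℤ} {d : ℕ} (hP : P.IsHomogeneous d)
    (hLC : LC fun n => coeff n (MvPolynomial.aeval g P).snd) (f : Fin 3 →₀ ℕ) (hf : f w = 1) :
    Ineq (P.coeff (f + Finsupp.single u 2)) (P.coeff (f + Finsupp.single v 2))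
      (P.coeff (f + Finsupp.single u 1 + Finsupp.single v 1)) := by
  by_cases hd : f u + f w + f v + 2 = d
  · have a1 := coeff_snd h1 h2 h3 gu gw gv hP (f + Finsupp.single u 2)
      (by simp [hf, h1]) (by simp [h1, h3]; omega)
    have a2 := coeff_snd h1 h2 h3 gu gw gv hP (f + Finsupp.single v 2)
      (by simp [hf, h2.symm]) (by simp [h2.symm, h3.symm]; omega)
    have a3 := coeff_snd h1 h2 h3 gu gw gv hP (f + Finsupp.single u 1 + Finsupp.single v 1)
      (by simp [hf, h1, h2.symm]) (by simp [h1, h2.symm, h3, h3.symm]; omega)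
    rw [← a1, ← a2, ← a3]
    have := hLC.lc (f v) (f v) le_rfl
    simp only [Finsupp.add_apply, Finsupp.single_eq_same, Finsupp.single_eq_of_ne h3, add_zero,
      Finsupp.single_eq_of_ne h3.symm] at this ⊢
    rw [Ineq, sq]
    exact this.imp id fun h => ⟨h.1, mul_self_eq_zero.mp h.2⟩
  · have a1 : P.coeff (f + Finsupp.single u 2) = 0 := by
      by_contra h
      have := deg_eq hP h
      rw [Finsupp.degree_eq_sum, sum3 h1 h2 h3] at this
      simp [h1, h3] at this
      omega
    have a2 : P.coeff (f + Finsupp.single u 1 + Finsupp.single v 1) = 0 := by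
      by_contra h
      have := deg_eq hP h
      rw [Finsupp.degree_eq_sum, sum3 h1 h2 h3] at this
      simp [h1, h2.symm, h3, h3.symm] at this
      omega
    rw [a1, a2]
    exact Or.inr ⟨zero_mul _, rfl⟩

end H46M
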