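import Pool.Agent.Lib.H46M.L

set_option autoImplicit false

namespace H46M

open MvPolynomial

/-- what is proved about one numerator, in the variables `a = x ^ 2`, `b = y ^ 2`, `c = z ^ 2` -/
structure Node (P : MvPolynomial (Fin 3) ℤ) : Prop where
  ndvd : ∀ w, ¬ X w ∣ P
  line : ∀ u w v : Fin 3, u ≠ w → w ≠ v → u ≠ v → ∀ f : Fin 3 →₀ ℕ, f w = 1 →
    Ineq (P.coeff (f + Finsupp.single u 2)) (P.coeff (f + Finsupp.single v 2))
      (P.coeff (f + Finsupp.single u 1 + Finsupp.single v 1))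

theorem Tri.hom {p q r s : ℕ} {P Q N : MvPolynomial (Fin 3) ℤ}
    (h : Tri (X 0 : MvPolynomial (Fin 3) ℤ) (X 1) (X 2) p q r s P Q N) :
    ∃ m n, m + 1 = p + q ∧ n + 1 = r + s ∧ P.IsHomogeneous m ∧ Q.IsHomogeneous n ∧
      N.IsHomogeneous (m + n + 1) := by
  induction h with
  | base =>
    refine ⟨0, 0, rfl, rfl, isHomogeneous_one _ _, isHomogeneous_one _ _, ?_⟩
    exact (isHomogeneous_X _ 0).add (isHomogeneous_X _ 1)
  | @left p q r s P Q N h ih =>
    obtain ⟨m, n, h1, h2, hP, hQ, hN⟩ := ih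
    refine ⟨m, m + n + 1, h1, by omega, hP, hN, ?_⟩
    have a1 : ((X 0 + X 1 + X 2 : MvPolynomial (Fin 3) ℤ) * P * N).IsHomogeneous (1 + m + (m + n + 1)) :=
      ((((isHomogeneous_X _ 0).add (isHomogeneous_X _ 1)).add (isHomogeneous_X _ 2)).mul hP).mul hN
    have a2 : ((X 0 : MvPolynomial (Fin 3) ℤ) ^ p * X 1 ^ q * X 2 ^ (p + q) * Q).IsHomogeneous
        (p + q + (p + q) + n) :=
      (((isHomogeneous_X_pow 0 p).mul (isHomogeneous_X_pow 1 q)).mul (isHomogeneous_X_pow 2 (p + q))).mul hQ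
    have e1 : 1 + m + (m + n + 1) = m + (m + n + 1) + 1 := by ring
    have e2 : p + q + (p + q) + n = m + (m + n + 1) + 1 := by omega
    rw [e1] at a1
    rw [e2] at a2
    exact a1.sub a2
  | @right p q r s P Q N h ih =>
    obtain ⟨m, n, h1, h2, hP, hQ, hN⟩ := ih
    refine ⟨m + n + 1, n, by omega, h2, hN, hQ, ?_⟩
    have a1 : ((X 0 + X 1 + X 2 : MvPolynomial (Fin 3) ℤ) * N * Q).IsHomogeneous (1 + (m + n + 1) + n) :=
      ((((isHomogeneous_X _ 0).add (isHomogeneous_X _ 1)).add (isHomogeneous_X _ 2)).mul hN).mul hQ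
    have a2 : ((X 0 : MvPolynomial (Fin 3) ℤ) ^ r * X 1 ^ s * X 2 ^ (r + s) * P).IsHomogeneous
        (r + s + (r + s) + m) :=
      (((isHomogeneous_X_pow 0 r).mul (isHomogeneous_X_pow 1 s)).mul (isHomogeneous_X_pow 2 (r + s))).mul hP
    have e1 : 1 + (m + n + 1) + n = m + n + 1 + n + 1 := by ring
    have e2 : r + s + (r + s) + m = m + n + 1 + n + 1 := by omega
    rw [e1] at a1
    rw [e2] at a2
    exact a1.sub a2

/-- the three evaluations -/
noncomputable def gA : Fin 3 → D := ![DualNumber.eps, 1, TrivSqZeroExt.inl PowerSeries.X]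
noncomputable def gB : Fin 3 → D := ![1, DualNumber.eps, TrivSqZeroExt.inl PowerSeries.X]
noncomputable def gC : Fin 3 → D := ![TrivSqZeroExt.inl PowerSeries.X, 1, DualNumber.eps]

theorem fst_ne {P : MvPolynomial (Fin 3) ℤ} {g : Fin 3 → D} {w : Fin 3} (hw : g w = DualNumber.eps)
    (h : (aeval g P).fst ≠ 0) : ¬ X w ∣ P := by
  rintro ⟨R, rfl⟩
  apply h
  rw [map_mul, aeval_X, hw, TrivSqZeroExt.fst_mul, DualNumber.fst_eps, zero_mul]

theorem one_add_pow_ne (n : ℕ) : ((1 + PowerSeries.X : PowerSeries ℤ)) ^ n ≠ 0 := by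
  apply pow_ne_zero
  intro h
  have := congrArg (PowerSeries.coeff (R := ℤ) 0) h
  simp at this

theorem G.fst_ne {p q : ℕ} {N : D} (h : G p q N) : N.fst ≠ 0 := by
  intro h0
  obtain ⟨-, -, rfl⟩ | ⟨-, h1, -⟩ := h
  · simp at h0
  · rw [h0, mul_zero] at h1
    exact one_add_pow_ne _ h1.symm

theorem F.fst_ne {p q : ℕ} {N : D} (h : F p q N) : N.fst ≠ 0 := by
  intro h0
  have h1 := h.1
  rw [h0, mul_zero] at h1
  exact one_add_pow_ne _ h1.symm

theorem Node.of {P : MvPolynomial (Fin 3) ℤ} {d p q p' q' : ℕ} (hd : P.IsHomogeneous d)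
    (hc : Nat.Coprime p q) (hc' : Nat.Coprime q p) (hB : G p q (aeval gB P))
    (hA : G q p (aeval gA P)) (hC : F p' q' (aeval gC P)) : Node P := by
  refine ⟨fun w => ?_, fun u w v h1 h2 h3 f hf => ?_⟩
  · fin_cases w
    · exact H46M.fst_ne (g := gA) rfl hA.fst_ne
    · exact H46M.fst_ne (g := gB) rfl hB.fst_ne
    · exact H46M.fst_ne (g := gC) rfl hC.fst_ne
  · have sym : ∀ u v : Fin 3, Ineq (P.coeff (f + Finsupp.single v 2)) (P.coeff (f + Finsupp.single u 2))
        (P.coeff (f + Finsupp.single v 1 + Finsupp.single u 1)) →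
        Ineq (P.coeff (f + Finsupp.single u 2)) (P.coeff (f + Finsupp.single v 2))
        (P.coeff (f + Finsupp.single u 1 + Finsupp.single v 1)) := by
      intro u v h
      rw [Ineq, mul_comm, add_right_comm]
      exact h
    have lA := fun h => H46M.line (u := 1) (w := 0) (v := 2) (g := gA) (by decide) (by decide) (by decide)
      rfl rfl rfl hd (hA.lc hc') f h
    have lB := fun h => H46M.line (u := 0) (w := 1) (v := 2) (g := gB) (by decide) (by decide) (by decide)
      rfl rfl rfl hd (hB.lc hc) f h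
    have lC := fun h => H46M.line (u := 1) (w := 2) (v := 0) (g := gC) (by decide) (by decide) (by decide)
      rfl rfl rfl hd hC.lc f h
    fin_cases w <;> fin_cases u <;> fin_cases v <;> first
      | exact absurd rfl h1
      | exact absurd rfl h2
      | exact absurd rfl h3
      | exact lA hf
      | exact lB hf
      | exact lC hf
      | exact sym _ _ (lA hf)
      | exact sym _ _ (lB hf)
      | exact sym _ _ (lC hf)

theorem Tri.good {p q r s : ℕ} {P Q N : MvPolynomial (Fin 3) ℤ}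
    (h : Tri (X 0 : MvPolynomial (Fin 3) ℤ) (X 1) (X 2) p q r s P Q N) : Node P ∧ Node Q ∧ Node N := by
  obtain ⟨m, n, -, -, hP, hQ, hN⟩ := h.hom
  have hd := h.det
  have hB : Tri (1 : D) DualNumber.eps (TrivSqZeroExt.inl PowerSeries.X) p q r s
      (aeval gB P) (aeval gB Q) (aeval gB N) := by
    have := h.map (aeval (R := ℤ) gB).toRingHom
    simpa [gB] using this
  have hA : Tri (DualNumber.eps : D) 1 (TrivSqZeroExt.inl PowerSeries.X) p q r s
      (aeval gA P) (aeval gA Q) (aeval gA N) := by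
    have := h.map (aeval (R := ℤ) gA).toRingHom
    simpa [gA] using this
  have hC : Tri (TrivSqZeroExt.inl PowerSeries.X : D) 1 DualNumber.eps p q r s
      (aeval gC P) (aeval gC Q) (aeval gC N) := by
    have := h.map (aeval (R := ℤ) gC).toRingHom
    simpa [gC] using this
  obtain ⟨-, -, b1, b2, b3⟩ := dirB hB
  obtain ⟨-, -, a1, a2, a3⟩ := dirB hA.swap
  obtain ⟨-, -, c1, c2, c3⟩ := dirC hC
  rw [add_comm s q, add_comm r p] at a3
  have k1 : Nat.Coprime p q := by
    rw [Nat.coprime_comm]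
    have : IsCoprime (q : ℤ) p := ⟨r, -s, by
      have : (q : ℤ) * r = p * s + 1 := by exact_mod_cast hd
      linear_combination this⟩
    exact Nat.isCoprime_iff_coprime.mp this
  have k2 : Nat.Coprime r s := by
    have : IsCoprime (r : ℤ) s := ⟨q, -p, by
      have : (q : ℤ) * r = p * s + 1 := by exact_mod_cast hd
      linear_combination this⟩
    exact Nat.isCoprime_iff_coprime.mp this
  have k3 : Nat.Coprime (p + r) (q + s) := by
    have : IsCoprime ((p + r : ℕ) : ℤ) ((q + s : ℕ) : ℤ) := ⟨q, -p, by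
      have : (q : ℤ) * r = p * s + 1 := by exact_mod_cast hd
      push_cast
      linear_combination this⟩
    exact Nat.isCoprime_iff_coprime.mp this
  exact ⟨Node.of hP k1 k1.symm b1 a2 c1, Node.of hQ k2 k2.symm b2 a1 c2, Node.of hN k3 k3.symm b3 a3 c3⟩

end H46M
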