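import Pool.Agent.Lib.H46M.M
import Pool.Agent.Lib.H46M.Defs

set_option autoImplicit false

namespace H46M

open MvPolynomial

theorem exists_coeff {P : MvPolynomial (Fin 3) ℤ} {w : Fin 3} (h : ¬ X w ∣ P) :
    ∃ m : Fin 3 →₀ ℕ, m w = 0 ∧ P.coeff m ≠ 0 := by
  by_contra hc
  push Not at hc
  apply h
  rw [X_dvd_iff_modMonomial_eq_zero]
  ext m
  by_cases hm : Finsupp.single w 1 ≤ m
  · rw [coeff_modMonomial_of_le _ hm, coeff_zero]
  · rw [coeff_modMonomial_of_not_le _ hm, coeff_zero]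
    apply hc
    by_contra h0
    apply hm
    rw [Finsupp.single_le_iff]
    omega

theorem not_dvd {P : MvPolynomial (Fin 3) ℤ} {w : Fin 3} {m : Fin 3 →₀ ℕ} (hm : m w = 0)
    (h : P.coeff m ≠ 0) : ¬ X w ∣ P := by
  classical
  rintro ⟨R, rfl⟩
  apply h
  rw [coeff_X_mul', if_neg]
  rw [Finsupp.mem_support_iff, not_not]
  exact hm

/-- the numerator in `x`, `y`, `z` -/
noncomputable def num (σ : Equiv.Perm (Fin 3)) (P : MvPolynomial (Fin 3) ℤ) : MvPolynomial (Fin 3) ℤ :=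
  rename σ (expand 2 P)

/-- what is proved about one numerator in `x`, `y`, `z` -/
def Good (N : MvPolynomial (Fin 3) ℤ) : Prop :=
  ∀ i j k : Fin 3, i ≠ j → j ≠ k → i ≠ k → ∀ f : Fin 3 →₀ ℕ, f i = 2 →
    Ineq (N.coeff (f + Finsupp.single j 4)) (N.coeff (f + Finsupp.single k 4))
      (N.coeff (f + Finsupp.single j 2 + Finsupp.single k 2))

theorem expand_good {P : MvPolynomial (Fin 3) ℤ} (h : Node P) : Good (expand 2 P) := by
  intro i j k h1 h2 h3 f hf
  by_cases he : ∀ t, 2 ∣ f t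
  · obtain ⟨g, rfl⟩ : ∃ g : Fin 3 →₀ ℕ, f = 2 • g := by
      refine ⟨f.mapRange (fun n => n / 2) (by simp), ?_⟩
      ext t
      have := he t
      simp
      omega
    have hg : g i = 1 := by simpa using hf
    have e1 : 2 • g + Finsupp.single j 4 = 2 • (g + Finsupp.single j 2) := by
      rw [smul_add, Finsupp.smul_single]; rfl
    have e2 : 2 • g + Finsupp.single k 4 = 2 • (g + Finsupp.single k 2) := by
      rw [smul_add, Finsupp.smul_single]; rfl
    have e3 : 2 • g + Finsupp.single j 2 + Finsupp.single k 2 =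
        2 • (g + Finsupp.single j 1 + Finsupp.single k 1) := by
      rw [smul_add, smul_add, Finsupp.smul_single, Finsupp.smul_single]; rfl
    rw [e1, e2, e3, coeff_expand_smul 2 two_ne_zero, coeff_expand_smul 2 two_ne_zero,
      coeff_expand_smul 2 two_ne_zero]
    exact h.line j i k h1.symm h3 h2 g hg
  · push Not at he
    obtain ⟨t, ht⟩ := he
    have : (expand 2 P).coeff (f + Finsupp.single j 4) = 0 := by
      apply coeff_expand_of_not_dvd (i := t)
      rw [Finsupp.add_apply]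
      rcases eq_or_ne j t with rfl | hjt
      · rw [Finsupp.single_eq_same]; omega
      · rw [Finsupp.single_eq_of_ne' hjt]; simpa using ht
    have h2' : (expand 2 P).coeff (f + Finsupp.single j 2 + Finsupp.single k 2) = 0 := by
      apply coeff_expand_of_not_dvd (i := t)
      rw [Finsupp.add_apply, Finsupp.add_apply, Finsupp.single_apply, Finsupp.single_apply]
      split_ifs <;> omega
    rw [this, h2']
    exact Or.inr ⟨zero_mul _, rfl⟩

theorem num_good (σ : Equiv.Perm (Fin 3)) {P : MvPolynomial (Fin 3) ℤ} (h : Node P) : Good (num σ P) := by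
  intro i j k h1 h2 h3 f hf
  obtain ⟨g, rfl⟩ : ∃ g : Fin 3 →₀ ℕ, f = g.mapDomain σ := by
    refine ⟨f.mapDomain σ.symm, ?_⟩
    rw [← Finsupp.mapDomain_comp]
    simp
  have e : ∀ (j : Fin 3) (n : ℕ), (Finsupp.single j n : Fin 3 →₀ ℕ) =
      (Finsupp.single (σ.symm j) n).mapDomain σ := by
    intro j n
    rw [Finsupp.mapDomain_single, Equiv.apply_symm_apply]
  have hg : g (σ.symm i) = 2 := by
    rw [← hf]
    conv_rhs => rw [← Equiv.apply_symm_apply σ i]
    rw [Finsupp.mapDomain_apply σ.injective]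
  rw [e j, e k, e j, e k, ← Finsupp.mapDomain_add, ← Finsupp.mapDomain_add, ← Finsupp.mapDomain_add,
    ← Finsupp.mapDomain_add, num, coeff_rename_mapDomain _ σ.injective, coeff_rename_mapDomain _ σ.injective,
    coeff_rename_mapDomain _ σ.injective]
  exact expand_good h _ _ _ (fun h => h1 (σ.symm.injective h)) (fun h => h2 (σ.symm.injective h))
    (fun h => h3 (σ.symm.injective h)) g hg

theorem num_ndvd (σ : Equiv.Perm (Fin 3)) {P : MvPolynomial (Fin 3) ℤ} (h : Node P) (i : Fin 3) :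
    ¬ X i ∣ num σ P := by
  obtain ⟨m, hm, h0⟩ := exists_coeff (h.ndvd (σ.symm i))
  apply not_dvd (m := (2 • m).mapDomain σ)
  · conv_lhs => rw [← Equiv.apply_symm_apply σ i]
    rw [Finsupp.mapDomain_apply σ.injective]
    simp [hm]
  · rw [num, coeff_rename_mapDomain _ σ.injective, coeff_expand_smul 2 two_ne_zero]
    exact h0

theorem x_ne (i : Fin 3) : x i ≠ 0 := by
  rw [x, ne_eq, map_eq_zero_iff _ (IsFractionRing.injective (MvPolynomial (Fin 3) ℤ) K)]
  exact X_ne_zero i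

theorem monomial_cancel {N N' : MvPolynomial (Fin 3) ℤ} {a b : Fin 3 →₀ ℕ}
    (hN' : ∀ i, ¬ X i ∣ N') (hab : ∀ i, a i = 0 ∨ b i = 0)
    (h : N * monomial a 1 = N' * monomial b 1) : a = 0 := by
  classical
  ext i
  by_contra hi
  rw [Finsupp.coe_zero, Pi.zero_apply] at hi
  have hb : b i = 0 := (hab i).resolve_left hi
  obtain ⟨m, hm, h0⟩ := exists_coeff (hN' i)
  have h1 := congrArg (coeff (m + b)) h
  rw [coeff_mul_monomial, mul_one, coeff_mul_monomial', if_neg] at h1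
  · exact h0 h1.symm
  · intro hle
    have := hle i
    rw [Finsupp.add_apply, hm, hb] at this
    omega

theorem zaux {t : K} (ht : t ≠ 0) (α β : ℤ) :
    t ^ β * t ^ (α - β).toNat = t ^ α * t ^ (β - α).toNat := by
  rw [← zpow_natCast, ← zpow_natCast, ← zpow_add₀ ht, ← zpow_add₀ ht]
  congr 1
  omega

noncomputable def vec (a b c : ℕ) : Fin 3 →₀ ℕ := Finsupp.equivFunOnFinite.symm ![a, b, c]

theorem map_monomial (a b c : ℕ) : algebraMap (MvPolynomial (Fin 3) ℤ) K (monomial (vec a b c) 1) =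
    x 0 ^ a * x 1 ^ b * x 2 ^ c := by
  rw [monomial_eq, Finsupp.prod_fintype _ _ (fun i => pow_zero _), Fin.prod_univ_three]
  simp [vec, x]

theorem unique_full {M : K} {N N' : MvPolynomial (Fin 3) ℤ} {α β γ α' β' γ' : ℤ} (hN : ∀ i, ¬ X i ∣ N)
    (hN' : ∀ i, ¬ X i ∣ N')
    (h1 : M = algebraMap (MvPolynomial (Fin 3) ℤ) K N / (x 0 ^ α * x 1 ^ β * x 2 ^ γ))
    (h2 : M = algebraMap (MvPolynomial (Fin 3) ℤ) K N' / (x 0 ^ α' * x 1 ^ β' * x 2 ^ γ')) :
    N = N' ∧ α = α' ∧ β = β' ∧ γ = γ' := by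
  rw [h1] at h2
  have k0 := fun n : ℤ => zpow_ne_zero n (x_ne 0)
  have k1 := fun n : ℤ => zpow_ne_zero n (x_ne 1)
  have k2 := fun n : ℤ => zpow_ne_zero n (x_ne 2)
  have e0 := zaux (x_ne 0) α α'
  have e1 := zaux (x_ne 1) β β'
  have e2 := zaux (x_ne 2) γ γ'
  set a0 := (α' - α).toNat with ha0
  set a1 := (β' - β).toNat with ha1
  set a2 := (γ' - γ).toNat with ha2
  set b0 := (α - α').toNat with hb0
  set b1 := (β - β').toNat with hb1
  set b2 := (γ - γ').toNat with hb2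
  rw [div_eq_div_iff (mul_ne_zero (mul_ne_zero (k0 _) (k1 _)) (k2 _))
    (mul_ne_zero (mul_ne_zero (k0 _) (k1 _)) (k2 _))] at h2
  have h3 : algebraMap (MvPolynomial (Fin 3) ℤ) K N * (x 0 ^ a0 * x 1 ^ a1 * x 2 ^ a2) =
      algebraMap (MvPolynomial (Fin 3) ℤ) K N' * (x 0 ^ b0 * x 1 ^ b1 * x 2 ^ b2) := by
    have hne : x 0 ^ α * x 1 ^ β * x 2 ^ γ ≠ 0 := mul_ne_zero (mul_ne_zero (k0 _) (k1 _)) (k2 _)
    apply mul_left_cancel₀ hne
    calc x 0 ^ α * x 1 ^ β * x 2 ^ γ *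
        (algebraMap (MvPolynomial (Fin 3) ℤ) K N * (x 0 ^ a0 * x 1 ^ a1 * x 2 ^ a2))
        = algebraMap (MvPolynomial (Fin 3) ℤ) K N * ((x 0 ^ α * x 0 ^ a0) * (x 1 ^ β * x 1 ^ a1) *
          (x 2 ^ γ * x 2 ^ a2)) := by ring
      _ = algebraMap (MvPolynomial (Fin 3) ℤ) K N * ((x 0 ^ α' * x 0 ^ b0) * (x 1 ^ β' * x 1 ^ b1) *
          (x 2 ^ γ' * x 2 ^ b2)) := by rw [e0, e1, e2]
      _ = (algebraMap (MvPolynomial (Fin 3) ℤ) K N * (x 0 ^ α' * x 1 ^ β' * x 2 ^ γ')) *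
          (x 0 ^ b0 * x 1 ^ b1 * x 2 ^ b2) := by ring
      _ = (algebraMap (MvPolynomial (Fin 3) ℤ) K N' * (x 0 ^ α * x 1 ^ β * x 2 ^ γ)) *
          (x 0 ^ b0 * x 1 ^ b1 * x 2 ^ b2) := by rw [h2]
      _ = _ := by ring
  rw [← map_monomial, ← map_monomial, ← map_mul, ← map_mul] at h3
  have h4 := IsFractionRing.injective (MvPolynomial (Fin 3) ℤ) K h3
  have hab : ∀ i, vec a0 a1 a2 i = 0 ∨ vec b0 b1 b2 i = 0 := by
    intro i
    fin_cases i
    · show a0 = 0 ∨ b0 = 0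
      omega
    · show a1 = 0 ∨ b1 = 0
      omega
    · show a2 = 0 ∨ b2 = 0
      omega
  have z1 := monomial_cancel hN' hab h4
  have z2 := monomial_cancel hN (fun i => (hab i).symm) h4.symm
  rw [z1, z2] at h4
  have c0 : a0 = 0 := DFunLike.congr_fun z1 0
  have c1 : a1 = 0 := DFunLike.congr_fun z1 1
  have c2 : a2 = 0 := DFunLike.congr_fun z1 2
  have d0 : b0 = 0 := DFunLike.congr_fun z2 0
  have d1 : b1 = 0 := DFunLike.congr_fun z2 1
  have d2 : b2 = 0 := DFunLike.congr_fun z2 2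
  exact ⟨by simpa using h4, by omega, by omega, by omega⟩

theorem unique {M : K} {N N' : MvPolynomial (Fin 3) ℤ} (h : IsNumerator M N) (h' : IsNumerator M N') :
    N = N' := by
  obtain ⟨hN, α, β, γ, h1⟩ := h
  obtain ⟨hN', α', β', γ', h2⟩ := h'
  exact (unique_full hN hN' h1 h2).1

end H46M
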