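import Pool.Agent.Lib.H46M.T
import Pool.Agent.Lib.H79W.Final

set_option autoImplicit false

namespace H46M

open MvPolynomial

/-- the inequality of log-concavity in the direction of the variables `u` and `v` -/
def W (N : MvPolynomial (Fin 3) ℤ) (u v : Fin 3) (f : Fin 3 →₀ ℕ) : Prop :=
  N.coeff (f + Finsupp.single u 2) * N.coeff (f + Finsupp.single v 2) ≤
    N.coeff (f + Finsupp.single u 1 + Finsupp.single v 1) ^ 2

/-- the lines treated, in the variables `a`, `b`, `c` -/
def Ln (N : MvPolynomial (Fin 3) ℤ) (i j k : Fin 3) : Prop :=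
  (∀ f : Fin 3 →₀ ℕ, f k ≤ 3 → W N i j f) ∧ (∀ f : Fin 3 →₀ ℕ, f j ≤ 2 → W N i k f) ∧
    ∀ f : Fin 3 →₀ ℕ, f i ≤ 1 → W N j k f

theorem mon_add (i j l : ℕ) (u : Fin 3) (n : ℕ) : H79W.mon i j l + Finsupp.single u n =
    H79W.mon (i + if u = 0 then n else 0) (j + if u = 1 then n else 0) (l + if u = 2 then n else 0) := by
  ext t
  fin_cases t <;> fin_cases u <;> simp [H79W.mon]

theorem mt_line {p q r s : ℕ} {P Q N : MvPolynomial (Fin 3) ℤ} (hT : H79W.MT p q r s P Q N) :
    Ln N 0 1 2 := by
  obtain ⟨_, _, _, _, hH⟩ := H79W.MT_hom hT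
  obtain ⟨e, he⟩ : ∃ e, e = p + r + (q + s) - 1 := ⟨_, rfl⟩
  rw [← he] at hH
  have zero : ∀ i j l, i + j + l ≠ e → N.coeff (H79W.mon i j l) = 0 := by
    intro i j l h
    by_contra h0
    apply h
    have := deg_eq hH h0
    rw [Finsupp.degree_eq_sum, Fin.sum_univ_three, H79W.mon_zero, H79W.mon_one, H79W.mon_two] at this
    exact this
  have red : ∀ u v : Fin 3, u ≠ v → ∀ f : Fin 3 →₀ ℕ, f 0 + f 1 + f 2 + 2 ≠ e → W N u v f := by
    intro u v huv f hf
    have h1 : N.coeff (f + Finsupp.single u 2) = 0 := by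
      by_contra h0
      apply hf
      have := deg_eq hH h0
      rw [← this, map_add, Finsupp.degree_single, Finsupp.degree_eq_sum, Fin.sum_univ_three]
    rw [W, h1, zero_mul]
    exact sq_nonneg _
  refine ⟨fun f hf => ?_, fun f hf => ?_, fun f hf => ?_⟩
  · by_cases hd : f 0 + f 1 + f 2 + 2 = e
    · rw [W, H79W.mon_eq f]
      generalize f 0 = i at *
      generalize f 1 = j at *
      generalize f 2 = l at *
      simp +decide only [mon_add, if_true, if_false, add_zero]
      have hLC := (H79W.sB_rows hT l hf).2 i i le_rfl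
      rw [H79W.sB_coeff N hH i l (by omega), H79W.sB_coeff N hH (i + 2) l (by omega),
        H79W.sB_coeff N hH (i + 1) l (by omega)] at hLC
      rw [show e - i - l = j + 2 by omega, show e - (i + 2) - l = j by omega,
        show e - (i + 1) - l = j + 1 by omega] at hLC
      rw [pow_two, mul_comm (N.coeff (H79W.mon (i + 2) j l))]
      exact hLC
    · exact red _ _ (by decide) f hd
  · by_cases hd : f 0 + f 1 + f 2 + 2 = e
    · rw [W, H79W.mon_eq f]
      generalize f 0 = i at *
      generalize f 1 = j at *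
      generalize f 2 = l at *
      simp +decide only [mon_add, if_true, if_false, add_zero]
      have hLC := (H79W.sH_rows hT j hf).2 i i le_rfl
      rw [H79W.sH_coeff N hH i j (by omega), H79W.sH_coeff N hH (i + 2) j (by omega),
        H79W.sH_coeff N hH (i + 1) j (by omega)] at hLC
      rw [show e - i - j = l + 2 by omega, show e - (i + 2) - j = l by omega,
        show e - (i + 1) - j = l + 1 by omega] at hLC
      rw [pow_two, mul_comm (N.coeff (H79W.mon (i + 2) j l))]
      exact hLC
    · exact red _ _ (by decide) f hd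
  · by_cases hd : f 0 + f 1 + f 2 + 2 = e
    · rw [W, H79W.mon_eq f]
      generalize f 0 = i at *
      generalize f 1 = j at *
      generalize f 2 = l at *
      simp +decide only [mon_add, if_true, if_false, add_zero]
      have hLC := (H79W.sV_rows hT i hf).2 l l le_rfl
      rw [H79W.sV_coeff N hH l i (by omega), H79W.sV_coeff N hH (l + 2) i (by omega),
        H79W.sV_coeff N hH (l + 1) i (by omega)] at hLC
      rw [show e - l - i = j + 2 by omega, show e - (l + 2) - i = j by omega,
        show e - (l + 1) - i = j + 1 by omega] at hLC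
      rw [pow_two]
      exact hLC
    · exact red _ _ (by decide) f hd

/-- exchange of the first two variables -/
noncomputable def ρ : MvPolynomial (Fin 3) ℤ →ₐ[ℤ] MvPolynomial (Fin 3) ℤ := rename (Equiv.swap (0 : Fin 3) 1)

theorem ρ0 : ρ (X 0) = X 1 := by simp [ρ]
theorem ρ1 : ρ (X 1) = X 0 := by simp [ρ]
theorem ρ2 : ρ (X 2) = X 2 := by
  rw [ρ, rename_X, Equiv.swap_apply_of_ne_of_ne (by decide) (by decide)]

theorem Tri.cls {p q r s : ℕ} {P Q N : MvPolynomial (Fin 3) ℤ}
    (h : Tri (X 0 : MvPolynomial (Fin 3) ℤ) (X 1) (X 2) p q r s P Q N) :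
    (p = 0 ∧ q = 1 ∧ r = 1 ∧ s = 0 ∧ P = 1 ∧ Q = 1 ∧ N = X 0 + X 1) ∨ H79W.MT p q r s P Q N ∨
      H79W.MT s r q p (ρ Q) (ρ P) (ρ N) := by
  induction h with
  | base => exact Or.inl ⟨rfl, rfl, rfl, rfl, rfl, rfl, rfl⟩
  | @left p q r s P Q N _ ih =>
    rcases ih with ⟨rfl, rfl, rfl, rfl, rfl, rfl, rfl⟩ | ih | ih
    · right; left
      convert H79W.MT.base using 1
      ring
    · right; left
      convert ih.left using 1
      ring
    · right; right
      have h1 := ih.right
      rw [add_comm s q, add_comm r p] at h1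
      convert h1 using 1
      simp only [map_sub, map_mul, map_add, map_pow, ρ0, ρ1, ρ2]
      rw [add_comm q p]
      ring
  | @right p q r s P Q N _ ih =>
    rcases ih with ⟨rfl, rfl, rfl, rfl, rfl, rfl, rfl⟩ | ih | ih
    · right; right
      have e1 : ρ (X 0 + X 1) = H79W.vA + H79W.vB := by
        rw [map_add, ρ0, ρ1]; ring
      have e2 : ρ ((X 0 + X 1 + X 2) * (X 0 + X 1) * 1 - X 0 ^ 1 * X 1 ^ 0 * X 2 ^ (1 + 0) * 1) =
          (H79W.vA + H79W.vB) ^ 2 + H79W.vA * H79W.vC := by
        simp only [map_sub, map_mul, map_add, map_pow, ρ0, ρ1, ρ2, map_one]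
        ring
      rw [map_one, e1, e2]
      exact H79W.MT.base
    · right; left
      convert ih.right using 1
      ring
    · right; right
      have h1 := ih.left
      rw [add_comm s q, add_comm r p] at h1
      convert h1 using 1
      simp only [map_sub, map_mul, map_add, map_pow, ρ0, ρ1, ρ2]
      rw [add_comm s r]
      ring

end H46M
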