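import Pool.Agent.Lib.H46M.Z

set_option autoImplicit false

namespace H46M

open MvPolynomial

theorem Reduced.unique {M : K} {N N' : MvPolynomial (Fin 3) ℤ} {α α' : Fin 3 → ℤ} (h : Reduced M N α)
    (h' : Reduced M N' α') : N = N' ∧ α = α' := by
  obtain ⟨h1, h2, h3, h4⟩ := unique_full h.1 h'.1 h.2 h'.2
  refine ⟨h1, ?_⟩
  ext t
  fin_cases t
  · exact h2
  · exact h3
  · exact h4

/-- what is proved about a Markov polynomial -/
def Result (N : MvPolynomial (Fin 3) ℤ) (α : Fin 3 → ℤ) : Prop :=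
  Good N ∧ ∀ i j k : Fin 3, i ≠ j → j ≠ k → i ≠ k → α i ≤ α j → α j ≤ α k → Ln2 N i j k

theorem Ln2_one (i j k : Fin 3) : Ln2 1 i j k := by
  have h : ∀ (u v : Fin 3) (f : Fin 3 →₀ ℕ), W2 1 u v f := by
    intro u v f
    have h1 : (1 : MvPolynomial (Fin 3) ℤ).coeff (f + Finsupp.single u 4) = 0 := by
      rw [MvPolynomial.coeff_one, if_neg]
      intro h
      have := DFunLike.congr_fun h u
      simp at this
    rw [W2, h1, zero_mul]
    exact sq_nonneg _
  exact ⟨fun _ _ => h _ _ _, fun _ _ => h _ _ _, fun _ _ => h _ _ _⟩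

theorem reduced_x (t : Fin 3) : Reduced (x t) 1 (fun s => if s = t then -1 else 0) := by
  refine ⟨(isNumerator_x t).1, ?_⟩
  rw [map_one]
  fin_cases t <;> simp

theorem reduced_val (σ : Equiv.Perm (Fin 3)) (p q : ℕ) {P : MvPolynomial (Fin 3) ℤ} (h : Node P) :
    Reduced (val σ p q P) (num σ P)
      (fun t => ![(p : ℤ) - 1, (q : ℤ) - 1, (p : ℤ) + q - 1] (σ.symm t)) := by
  refine ⟨num_ndvd σ h, ?_⟩
  let e : Fin 3 → ℤ := fun i => ![(p : ℤ) - 1, (q : ℤ) - 1, (p : ℤ) + q - 1] (σ.symm i)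
  show _ = _ / (x 0 ^ e 0 * x 1 ^ e 1 * x 2 ^ e 2)
  have h0 := x_ne (σ 0)
  have h1 := x_ne (σ 1)
  have h2 := x_ne (σ 2)
  have e1 : x 0 ^ e 0 * x 1 ^ e 1 * x 2 ^ e 2 =
      x (σ 0) ^ ((p : ℤ) - 1) * x (σ 1) ^ ((q : ℤ) - 1) * x (σ 2) ^ ((p : ℤ) + q - 1) := by
    have a := Fin.prod_univ_three fun i => x i ^ e i
    have b := Fin.prod_univ_three fun i => x (σ i) ^ e (σ i)
    rw [← a, ← Equiv.prod_comp σ (fun i => x i ^ e i), b]
    simp [e]
  rw [e1, val, aeval_expand, zpow_sub₀ h0, zpow_sub₀ h1, zpow_sub₀ h2, zpow_add₀ h2]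
  simp only [zpow_natCast, zpow_one]
  field_simp
  ring

theorem result_val (σ : Equiv.Perm (Fin 3)) (p q : ℕ) {P : MvPolynomial (Fin 3) ℤ} (h : Node P)
    (hL : NL p q P) : Result (num σ P)
      (fun t => ![(p : ℤ) - 1, (q : ℤ) - 1, (p : ℤ) + q - 1] (σ.symm t)) := by
  refine ⟨num_good σ h, fun i j k hij hjk hik h1 h2 => ?_⟩
  obtain ⟨l1, l2, l3⟩ := hL
  obtain ⟨i, rfl⟩ := σ.surjective i
  obtain ⟨j, rfl⟩ := σ.surjective j
  obtain ⟨k, rfl⟩ := σ.surjective k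
  apply Ln_num
  simp only [Equiv.symm_apply_apply] at h1 h2
  by_cases h0 : p = 0 ∨ q = 0
  · rw [l3 h0]
    exact Ln_small (isHomogeneous_one _ _) (by omega) _ _ _
  · have hij' : i ≠ j := fun e => hij (by rw [e])
    have hjk' : j ≠ k := fun e => hjk (by rw [e])
    have hik' : i ≠ k := fun e => hik (by rw [e])
    fin_cases i <;> fin_cases j <;> fin_cases k <;> first
      | exact absurd rfl hij'
      | exact absurd rfl hjk'
      | exact absurd rfl hik'
      | (exact l1 (by simp at h1; omega))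
      | (exact l2 (by simp at h1; omega))
      | (exfalso; simp at h1 h2; omega)

theorem Can.result {A B C : K} (h : Can A B C) : ∀ M ∈ ({A, B, C} : Multiset K),
    ∃ N α, Reduced M N α ∧ Result N α := by
  intro M hM
  simp only [Multiset.insert_eq_cons, Multiset.mem_cons, Multiset.mem_singleton] at hM
  cases h with
  | init σ =>
    rcases hM with rfl | rfl | rfl
    all_goals exact ⟨1, _, reduced_x _, one_good, fun i j k _ _ _ _ _ => Ln2_one i j k⟩
  | @tree σ p q r s P Q N h =>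
    obtain ⟨g1, g2, g3⟩ := h.good
    rcases hM with rfl | rfl | rfl
    · exact ⟨_, _, reduced_val σ _ _ g1, result_val σ _ _ g1 h.nl.1⟩
    · exact ⟨_, _, reduced_val σ _ _ g2, result_val σ _ _ g2 h.nl.2⟩
    · exact ⟨_, _, reduced_val σ _ _ g3, result_val σ _ _ g3 (third h)⟩

theorem full {A B C : K} (h : MarkovTriple A B C) :
    (∃! p : MvPolynomial (Fin 3) ℤ × (Fin 3 → ℤ), Reduced A p.1 p.2) ∧
      ∀ N α, Reduced A N α → Result N α := by
  obtain ⟨A', B', C', h1, h2⟩ := cls_of_markov h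
  obtain ⟨N, α, h3, h4⟩ := h1.result A (by rw [← h2]; simp)
  refine ⟨⟨(N, α), h3, fun p h5 => ?_⟩, fun N' α' h5 => ?_⟩
  · obtain ⟨e1, e2⟩ := h5.unique h3
    exact Prod.ext e1 e2
  · obtain ⟨rfl, rfl⟩ := h5.unique h3
    exact h4

end H46M
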