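import Pool.Agent.Lib.H46M.W

set_option autoImplicit false

namespace H46M

open MvPolynomial

theorem W_small {N : MvPolynomial (Fin 3) ℤ} {d : ℕ} (hN : N.IsHomogeneous d) (hd : d ≤ 1) (u v : Fin 3)
    (f : Fin 3 →₀ ℕ) : W N u v f := by
  have h1 : N.coeff (f + Finsupp.single u 2) = 0 := by
    by_contra h0
    have := deg_eq hN h0
    rw [map_add, Finsupp.degree_single] at this
    omega
  rw [W, h1, zero_mul]
  exact sq_nonneg _

theorem Ln_small {N : MvPolynomial (Fin 3) ℤ} {d : ℕ} (hN : N.IsHomogeneous d) (hd : d ≤ 1) (i j k : Fin 3) :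
    Ln N i j k :=
  ⟨fun _ _ => W_small hN hd _ _ _, fun _ _ => W_small hN hd _ _ _, fun _ _ => W_small hN hd _ _ _⟩

theorem W_rename (σ : Equiv.Perm (Fin 3)) (N : MvPolynomial (Fin 3) ℤ) (u v : Fin 3) (f : Fin 3 →₀ ℕ) :
    W (rename σ N) (σ u) (σ v) (f.mapDomain σ) ↔ W N u v f := by
  have e : ∀ (j : Fin 3) (n : ℕ), (Finsupp.single (σ j) n : Fin 3 →₀ ℕ) = (Finsupp.single j n).mapDomain σ := by
    intro j n
    rw [Finsupp.mapDomain_single]
  rw [W, W, e u, e v, e u, e v, ← Finsupp.mapDomain_add, ← Finsupp.mapDomain_add, ← Finsupp.mapDomain_add,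
    ← Finsupp.mapDomain_add, coeff_rename_mapDomain _ σ.injective, coeff_rename_mapDomain _ σ.injective,
    coeff_rename_mapDomain _ σ.injective]

/-- the property of the node `(p, q)` -/
def NL (p q : ℕ) (N : MvPolynomial (Fin 3) ℤ) : Prop :=
  (p ≤ q → Ln N 0 1 2) ∧ (q ≤ p → Ln N 1 0 2) ∧ (p = 0 ∨ q = 0 → N = 1)

theorem third {p q r s : ℕ} {P Q N : MvPolynomial (Fin 3) ℤ}
    (h : Tri (X 0 : MvPolynomial (Fin 3) ℤ) (X 1) (X 2) p q r s P Q N) : NL (p + r) (q + s) N := by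
  have lt : ∀ {p q r s : ℕ} {P Q N : MvPolynomial (Fin 3) ℤ}, H79W.MT p q r s P Q N →
      p + r < q + s ∧ 1 ≤ p + r := by
    intro p q r s P Q N h
    obtain ⟨hdet, hab, hcd, _⟩ := H79W.PT_inv (H79W.MT_PT h)
    constructor
    · by_contra hge
      have h1 : p = q := by omega
      have h2 : r = s := by omega
      rw [h1, h2] at hdet
      omega
    · rcases Nat.eq_zero_or_pos r with h0 | h0
      · rw [h0] at hdet; omega
      · omega
  rcases h.cls with ⟨rfl, rfl, rfl, rfl, rfl, rfl, rfl⟩ | h | h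
  · have : (X 0 + X 1 : MvPolynomial (Fin 3) ℤ).IsHomogeneous 1 :=
      (isHomogeneous_X _ 0).add (isHomogeneous_X _ 1)
    exact ⟨fun _ => Ln_small this le_rfl _ _ _, fun _ => Ln_small this le_rfl _ _ _, fun h => by omega⟩
  · obtain ⟨h1, h2⟩ := lt h
    exact ⟨fun _ => mt_line h, fun h3 => absurd h3 (by omega), fun h3 => by omega⟩
  · obtain ⟨h1, h2⟩ := lt h
    refine ⟨fun h3 => absurd h3 (by omega), fun _ => ?_, fun h3 => by omega⟩
    obtain ⟨l1, l2, l3⟩ := mt_line h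
    have e : ∀ (f : Fin 3 →₀ ℕ) (t : Fin 3), (f.mapDomain (Equiv.swap (0 : Fin 3) 1)) (Equiv.swap (0 : Fin 3) 1 t) = f t :=
      fun f t => Finsupp.mapDomain_apply (Equiv.swap (0 : Fin 3) 1).injective _ _
    refine ⟨fun f hf => ?_, fun f hf => ?_, fun f hf => ?_⟩
    · exact (W_rename (Equiv.swap (0 : Fin 3) 1) N 1 0 f).mp (l1 _ (by
        have := e f 2
        rw [Equiv.swap_apply_of_ne_of_ne (by decide) (by decide)] at this
        rw [this]; exact hf))
    · exact (W_rename (Equiv.swap (0 : Fin 3) 1) N 1 2 f).mp (l2 _ (by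
        have := e f 0
        rw [Equiv.swap_apply_left] at this
        rw [this]; exact hf))
    · exact (W_rename (Equiv.swap (0 : Fin 3) 1) N 0 2 f).mp (l3 _ (by
        have := e f 1
        rw [Equiv.swap_apply_right] at this
        rw [this]; exact hf))

theorem Tri.nl {p q r s : ℕ} {P Q N : MvPolynomial (Fin 3) ℤ}
    (h : Tri (X 0 : MvPolynomial (Fin 3) ℤ) (X 1) (X 2) p q r s P Q N) : NL p q P ∧ NL r s Q := by
  induction h with
  | base =>
    have : (1 : MvPolynomial (Fin 3) ℤ).IsHomogeneous 0 := isHomogeneous_one _ _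
    exact ⟨⟨fun _ => Ln_small this (by omega) _ _ _, fun _ => Ln_small this (by omega) _ _ _, fun _ => rfl⟩,
      ⟨fun _ => Ln_small this (by omega) _ _ _, fun _ => Ln_small this (by omega) _ _ _, fun _ => rfl⟩⟩
  | left h ih => exact ⟨ih.1, third h⟩
  | right h ih => exact ⟨third h, ih.2⟩

/-- the inequality for the numerator in `x`, `y`, `z` -/
def W2 (N : MvPolynomial (Fin 3) ℤ) (u v : Fin 3) (f : Fin 3 →₀ ℕ) : Prop :=
  N.coeff (f + Finsupp.single u 4) * N.coeff (f + Finsupp.single v 4) ≤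
    N.coeff (f + Finsupp.single u 2 + Finsupp.single v 2) ^ 2

/-- the lines treated, in the variables `x`, `y`, `z` -/
def Ln2 (N : MvPolynomial (Fin 3) ℤ) (i j k : Fin 3) : Prop :=
  (∀ f : Fin 3 →₀ ℕ, f k ≤ 7 → W2 N i j f) ∧ (∀ f : Fin 3 →₀ ℕ, f j ≤ 5 → W2 N i k f) ∧
    ∀ f : Fin 3 →₀ ℕ, f i ≤ 3 → W2 N j k f

theorem W2_expand {N : MvPolynomial (Fin 3) ℤ} {u v w : Fin 3} {n : ℕ}
    (h : ∀ f : Fin 3 →₀ ℕ, f w ≤ n → W N u v f) (f : Fin 3 →₀ ℕ) (hf : f w ≤ 2 * n + 1) :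
    W2 (expand 2 N) u v f := by
  by_cases he : ∀ t, 2 ∣ f t
  · obtain ⟨g, rfl⟩ : ∃ g : Fin 3 →₀ ℕ, f = 2 • g := by
      refine ⟨f.mapRange (fun n => n / 2) (by simp), ?_⟩
      ext t
      have := he t
      simp
      omega
    have hg : g w ≤ n := by
      have : 2 * g w ≤ 2 * n + 1 := by simpa using hf
      omega
    have e1 : 2 • g + Finsupp.single u 4 = 2 • (g + Finsupp.single u 2) := by
      rw [smul_add, Finsupp.smul_single]; rfl
    have e2 : 2 • g + Finsupp.single v 4 = 2 • (g + Finsupp.single v 2) := by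
      rw [smul_add, Finsupp.smul_single]; rfl
    have e3 : 2 • g + Finsupp.single u 2 + Finsupp.single v 2 =
        2 • (g + Finsupp.single u 1 + Finsupp.single v 1) := by
      rw [smul_add, smul_add, Finsupp.smul_single, Finsupp.smul_single]; rfl
    rw [W2, e1, e2, e3, coeff_expand_smul 2 two_ne_zero, coeff_expand_smul 2 two_ne_zero,
      coeff_expand_smul 2 two_ne_zero]
    exact h g hg
  · push Not at he
    obtain ⟨t, ht⟩ := he
    have : (expand 2 N).coeff (f + Finsupp.single u 4) = 0 := by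
      apply coeff_expand_of_not_dvd (i := t)
      rw [Finsupp.add_apply, Finsupp.single_apply]
      split_ifs <;> omega
    rw [W2, this, zero_mul]
    exact sq_nonneg _

theorem W2_rename (σ : Equiv.Perm (Fin 3)) (N : MvPolynomial (Fin 3) ℤ) (u v : Fin 3) (f : Fin 3 →₀ ℕ) :
    W2 (rename σ N) (σ u) (σ v) (f.mapDomain σ) ↔ W2 N u v f := by
  have e : ∀ (j : Fin 3) (n : ℕ), (Finsupp.single (σ j) n : Fin 3 →₀ ℕ) = (Finsupp.single j n).mapDomain σ := by
    intro j n
    rw [Finsupp.mapDomain_single]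
  rw [W2, W2, e u, e v, e u, e v, ← Finsupp.mapDomain_add, ← Finsupp.mapDomain_add, ← Finsupp.mapDomain_add,
    ← Finsupp.mapDomain_add, coeff_rename_mapDomain _ σ.injective, coeff_rename_mapDomain _ σ.injective,
    coeff_rename_mapDomain _ σ.injective]

theorem Ln_num (σ : Equiv.Perm (Fin 3)) {N : MvPolynomial (Fin 3) ℤ} {i j k : Fin 3} (h : Ln N i j k) :
    Ln2 (num σ N) (σ i) (σ j) (σ k) := by
  obtain ⟨l1, l2, l3⟩ := h
  have key : ∀ (u v w : Fin 3) (n : ℕ), (∀ f : Fin 3 →₀ ℕ, f w ≤ n → W N u v f) →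
      ∀ f : Fin 3 →₀ ℕ, f (σ w) ≤ 2 * n + 1 → W2 (num σ N) (σ u) (σ v) f := by
    intro u v w n hW f hf
    obtain ⟨g, rfl⟩ : ∃ g : Fin 3 →₀ ℕ, f = g.mapDomain σ := by
      refine ⟨f.mapDomain σ.symm, ?_⟩
      rw [← Finsupp.mapDomain_comp]
      simp
    rw [Finsupp.mapDomain_apply σ.injective] at hf
    rw [num, W2_rename]
    exact W2_expand hW g hf
  exact ⟨key i j k 3 l1, key i k j 2 l2, key j k i 1 l3⟩

end H46M
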